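import Pool.Agent.Helper4.DonTermA

set_option autoImplicit false
set_option linter.unusedSectionVars false

/-!
MP_cc0723_lc: the saving lemma for sets whose stabilizer is exactly `K` (mode K).
-/

namespace Pool.Agent.Helper57.ModeK

open Pool.Agent.Helper4.Don

variable {n : ℕ} [NeZero n]

theorem two_le_index (A : Data n) (hK : A.K ≠ ⊤) : 2 ≤ A.K.index := by
  have h1 := index_pos' A.K
  have h2 : A.K.index ≠ 1 := fun h => hK (AddSubgroup.index_eq_one.1 h)
  omega

/-- the exits of a set with stabilizer `K` -/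
theorem exitK {A : Data n} {N a : ℕ} (ih : IH A N) (hK : A.K ≠ ⊤) {Z : Finset (ZMod n)}
    (h : Pr A N Z a) (hst : Stab Z = A.K) (ha : a < A.K.index)
    (hcl : ∀ y ∈ Z, ∀ j : ℕ, 1 ≤ j → j ≤ a → y + (j : ZMod n) ∉ A.K) :
    ((A.K.index - 1 - a : ℕ) : ZMod n) ∈ Z ∧
      (∀ k ∈ A.K, (((A.K.index - 1 - a : ℕ) : ZMod n) + A.σ k ∈ Z ↔ A.σ k ∈ A.K)) := by
  have hun : IsUnion A.K Z := (isUnion_iff _ _).2 hst.ge
  have key : ∀ k ∈ A.K, A.σ k ∉ A.K → ((A.K.index - 1 - a : ℕ) : ZMod n) ∈ Z ∧
      ((A.K.index - 1 - a : ℕ) : ZMod n) + A.σ k ∉ Z := by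
    intro k hk hσ
    have hex : ∃ z ∈ Z, z + A.σ k ∉ Z := by
      by_contra hcon
      push Not at hcon
      exact hσ (hst ▸ mem_Stab_of Z _ hcon)
    obtain ⟨z, hz1, hz2⟩ := hex
    obtain ⟨y, hy1, hy2, -⟩ := exists_small_rep A.K z
    have hy3 : y ∈ Z := by
      have := hun z hz1 _ (A.K.neg_mem hy1)
      convert this using 1
      ring
    have hy4 : y + A.σ k ∉ Z := by
      intro h1
      apply hz2
      have := hun _ h1 _ hy1
      convert this using 1
      ring
    have h1 : Pr A N (pull (A.σ ^ 1) (sh ((y.val : ℕ) : ZMod n) Z)) (a + y.val + 1) := by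
      apply (h.shift y.val).keep
      rw [mem_sh, ZMod.natCast_zmod_val, zero_add]
      exact hy3
    have hb : Brk A (pull (A.σ ^ 1) (sh ((y.val : ℕ) : ZMod n) Z)) := by
      refine ⟨⟨0, A.K.zero_mem, ?_⟩, k, hk, ?_⟩
      · rw [mem_pull, A.pow_zero', mem_sh, ZMod.natCast_zmod_val, zero_add]
        exact hy3
      · rw [mem_pull, pow_one, mem_sh, ZMod.natCast_zmod_val, add_comm]
        exact hy4
    have h2 := h1.brk ih hb
    have h3 : y.val = A.K.index - 1 - a := by
      by_contra hne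
      have h4 : A.K.index - y.val ≤ a := by omega
      apply hcl y hy3 (A.K.index - y.val) (by omega) h4
      have e : y + ((A.K.index - y.val : ℕ) : ZMod n) = ((A.K.index : ℕ) : ZMod n) := by
        rw [Nat.cast_sub hy2.le, ZMod.natCast_zmod_val]
        ring
      rw [e]
      exact index_mem' _
    have h5 : y = ((A.K.index - 1 - a : ℕ) : ZMod n) := by
      rw [← h3, ZMod.natCast_zmod_val]
    rw [← h5]
    exact ⟨hy3, hy4⟩
  obtain ⟨k, hk1, hk2⟩ := exists_sigma_exit A A.K le_rfl hK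
  refine ⟨(key k hk1 hk2).1, fun k hk => ⟨fun h1 => ?_, fun h1 => hun _ (key _ hk1 hk2).1 _ h1⟩⟩
  by_contra h2
  exact (key k hk h2).2 h1

/-- the marker state of a set with stabilizer `K` -/
theorem markerK {A : Data n} {N a : ℕ} (ih : IH A N) (hK : A.K ≠ ⊤) {Z : Finset (ZMod n)}
    (h : Pr A N Z a) (hst : Stab Z = A.K) (ha : a < A.K.index)
    (hcl : ∀ y ∈ Z, ∀ j : ℕ, 1 ≤ j → j ≤ a → y + (j : ZMod n) ∉ A.K) :
    ∃ U : Finset (ZMod n), U.card = Z.card ∧ Pr A N U (n - 1 + 1) ∧ (0 : ZMod n) ∈ U ∧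
      A.u 0 ∉ U ∧ dl A ∈ U ∧ (∀ k ∈ A.K, k ∈ U → A.σ (k - dl A) ∈ A.K) ∧
      (∀ y, A.σ (y - dl A) ∈ A.K → y ∈ U) := by
  obtain ⟨h1, h2⟩ := exitK ih hK h hst ha hcl
  have hun : IsUnion A.K Z := (isUnion_iff _ _).2 hst.ge
  set x : ℕ := A.K.index - 1 - a with hx
  set W : Finset (ZMod n) := pull (A.σ ^ 1) (sh (x : ZMod n) Z) with hW
  have hWmem : ∀ y, y ∈ W ↔ (x : ZMod n) + A.σ y ∈ Z := by
    intro y
    rw [hW, mem_pull, mem_sh, pow_one, add_comm]
  have h3 : Pr A N W A.K.index := by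
    have h4 : Pr A N W (a + x + 1) := by
      apply (h.shift x).keep
      rw [mem_sh, zero_add]
      exact h1
    exact h4.mono (by omega)
  obtain ⟨k, hk1, hk2⟩ := exists_sigma_exit A A.K le_rfl hK
  have h0W : (0 : ZMod n) ∈ W := by
    rw [hWmem, A.σ0, add_zero]
    exact h1
  have hb : Brk A W := by
    refine ⟨⟨0, A.K.zero_mem, h0W⟩, k, hk1, ?_⟩
    rw [hWmem]
    exact fun h5 => hk2 ((h2 k hk1).1 h5)
  have hD := index_pos' A.K
  obtain ⟨-, h5, h6, -, h7⟩ := h3.mk ih hb (by omega)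
  refine ⟨sh (-dl A) W, ?_, ?_, h5, h6, ?_, ?_, ?_⟩
  · rw [card_sh, hW, card_pull, card_sh]
  · exact h7.mono (by omega)
  · rw [mem_sh]
    simpa using h0W
  · intro k hk h8
    rw [mem_sh, hWmem, ← sub_eq_add_neg] at h8
    exact (h2 _ (A.K.sub_mem hk (dl_mem A))).1 h8
  · intro y hy
    rw [mem_sh, hWmem, ← sub_eq_add_neg]
    exact hun _ h1 _ hy

/-- all but one elements of `K` are in `U` -/
theorem all_but_one (A : Data n) (hκ : 2 ≤ Nat.card A.K) {U : Finset (ZMod n)} (hu : A.u 0 ∉ U)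
    (hc : (inK A U).card + 1 = Nat.card A.K) {k : ZMod n} (hk : k ∈ A.K) (hk2 : k ≠ A.u 0) :
    k ∈ U := by
  classical
  by_contra hcon
  have h1 : inK A U ⊆ ((Finset.univ.filter (fun y => y ∈ A.K)).erase (A.u 0)).erase k := by
    intro y hy
    rw [mem_inK] at hy
    rw [Finset.mem_erase, Finset.mem_erase, Finset.mem_filter]
    refine ⟨?_, ?_, Finset.mem_univ _, hy.2⟩
    · rintro rfl
      exact hcon hy.1
    · rintro rfl
      exact hu hy.1
  have h2 := Finset.card_le_card h1
  have h3 := card_filter_K A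
  have h5 : A.u 0 ∈ Finset.univ.filter (fun y => y ∈ A.K) := by simpa using A.u_mem_K 0
  have h6 : k ∈ (Finset.univ.filter (fun y => y ∈ A.K)).erase (A.u 0) := by
    rw [Finset.mem_erase]
    exact ⟨hk2, by simpa using hk⟩
  rw [Finset.card_erase_of_mem h6, Finset.card_erase_of_mem h5, h3] at h2
  omega

theorem dl_ne_zero (A : Data n) (hκ : 2 ≤ Nat.card A.K) : dl A ≠ 0 := by
  intro h
  have h1 := (mul_dl_eq_zero A 1).1 (by rw [Nat.cast_one, one_mul]; exact h)
  have := Nat.le_of_dvd (by omega) h1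
  omega

theorem card_V_le (A : Data n) (j : ℕ) : (V A j).card ≤ n := by
  have := Finset.card_le_univ (V A j)
  rwa [ZMod.card] at this

/-- the data of the case `κ = 3` -/
structure K3 (A : Data n) : Prop where
  hK : A.K ≠ ⊤
  hκ : Nat.card A.K = 3
  hu : A.u 0 = -dl A
  hσ : A.σ (A.u 0) = A.u 0
  haw : Away A (2 * A.K.index - 1) (dl A)
  hS : ∀ k ∈ A.K, A.σ k ∈ A.K → k = 0 ∨ k = A.u 0

/-- reduction to `κ = 3` -/
theorem first {A : Data n} {Y : Finset (ZMod n)} (ih : IH A Y.card) (hY : Pr A Y.card Y 0)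
    (hne : Y.Nonempty) (hK : A.K ≠ ⊤) (hst : Stab Y = A.K) :
    K3 A ∧ Y.card ≤ A.K.index := by
  classical
  have hD := two_le_index A hK
  have hκ := three_le_card A hK
  have hn := card_mul_index' A.K
  have hpos : 0 < Y.card := Finset.card_pos.2 hne
  obtain ⟨U, hUc, hU, h0, hu, hd, hUK, hU2⟩ := markerK ih hK hY hst (by omega)
    (fun y _ j h1 h2 => by omega)
  have hR := hU.drop h0 hu
  have hRc : (pull A.σ (U.erase 0)).card = Y.card - 1 := by
    rw [card_pull, Finset.card_erase_of_mem h0, hUc]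
  have hdvd : Nat.card A.K ∣ Y.card :=
    card_dvd_of_isUnion _ _ ((isUnion_iff _ _).2 hst.ge)
  obtain ⟨U', a', i', g1, g2, g3, g4, g5, g6, g7, g8, -, g10⟩ :=
    stage ih 1 _ 1 hR le_rfl (by omega) le_rfl (by omega) (by
      rw [hRc]
      have e : Y.card - 1 + 1 = Y.card := by omega
      rw [e]
      exact hdvd)
  have ha' : a' = 1 := by omega
  have hi' : i' = 1 := by omega
  subst ha' hi'
  have hall : ∀ k ∈ A.K, k ≠ A.u 0 → k ∈ U' := fun k hk hk2 => all_but_one A (by omega) g8 g10 hk hk2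
  have hfin : ∀ k ∈ A.K, A.σ k ∈ A.K → A.σ k = 0 ∨ A.σ k = A.u 0 := by
    intro k hk hk2
    by_contra hcon
    push Not at hcon
    have h1 := g6.ret ih g7 g8 le_rfl (hall _ hk2 hcon.2) hcon.1
    exact h1 1 le_rfl (by omega) k hk (by rw [pow_one])
  have hσ : A.σ (A.u 0) = A.u 0 := by
    have h1 : A.σ (A.u 0) = A.u 1 := by
      have := A.u_add 1 0
      rw [pow_one] at this
      simpa using this.symm
    rcases hfin _ (A.u_mem_K 0) (by rw [h1]; exact A.u_mem_K 1) with h2 | h2
    · exfalso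
      rw [h1] at h2
      exact A.u_ne_zero 1 h2
    · exact h2
  have hS : ∀ k ∈ A.K, A.σ k ∈ A.K → k = 0 ∨ k = A.u 0 := by
    intro k hk hk2
    rcases hfin k hk hk2 with h1 | h1
    · left
      apply A.σ.injective
      rw [h1, A.σ0]
    · right
      apply A.σ.injective
      rw [h1, hσ]
  have hdl := dl_ne_zero A (by omega)
  have hud : -dl A = A.u 0 := by
    have h1 := hUK 0 A.K.zero_mem h0
    rw [zero_sub] at h1
    rcases hS _ (A.K.neg_mem (dl_mem A)) h1 with h2 | h2
    · exact absurd (neg_eq_zero.1 h2) hdl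
    · exact h2
  have hfull := full_of_eq A hud
  have hg : ∀ t ∈ U', t ≠ 0 → Away A (2 * A.K.index - 1) t := fun t ht ht0 =>
    g6.gap' ih g7 g8 le_rfl (by omega) hfull ht ht0
  have hgU : ∀ t ∈ U, t ≠ 0 → Away A (2 * A.K.index - 1) t := fun t ht ht0 =>
    hU.gap' ih h0 hu le_rfl (by omega) hfull ht ht0
  have hκ3 : Nat.card A.K = 3 := by
    have h1 := grow A (2 * A.K.index - 1) ((inK A U').erase 0)
      (by
        intro t ht
        rw [Finset.mem_erase, mem_inK] at ht
        exact ht.2.2)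
      (by
        intro t ht
        rw [Finset.mem_erase, mem_inK] at ht
        exact hg t ht.2.1 ht.1) (2 * A.K.index - 1) le_rfl
    have h2 : ((inK A U').erase 0).card = Nat.card A.K - 2 := by
      rw [Finset.card_erase_of_mem]
      · omega
      · rw [mem_inK]
        exact ⟨g7, A.K.zero_mem⟩
    have h3 := card_V_le A (2 * A.K.index - 1)
    rw [h2] at h1
    by_contra hne3
    obtain ⟨m, hm⟩ : ∃ m, Nat.card A.K = m + 4 := ⟨Nat.card A.K - 4, by omega⟩
    obtain ⟨d, hd'⟩ : ∃ d, A.K.index = d + 1 := ⟨A.K.index - 1, by omega⟩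
    rw [hm, hd'] at h1 hn
    have e1 : m + 4 - 2 = m + 2 := by omega
    have e2 : 2 * (d + 1) - 1 = 2 * d + 1 := by omega
    rw [hd', e2] at h3
    rw [e1, e2] at h1
    nlinarith
  have haw : Away A (2 * A.K.index - 1) (dl A) := hgU _ hd hdl
  refine ⟨⟨hK, hκ3, hud.symm, hσ, haw, hS⟩, ?_⟩
  have h1 := size_bound (w := 2 * A.K.index - 2) h0 (fun t ht ht0 =>
    (hgU t ht ht0).mono (by omega))
  have h2 := grow A (2 * A.K.index - 1) {dl A}
    (by
      intro t ht
      rw [Finset.mem_singleton] at ht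
      rw [ht]
      exact dl_mem A)
    (by
      intro t ht
      rw [Finset.mem_singleton] at ht
      rw [ht]
      exact haw) (2 * A.K.index - 2) (by omega)
  rw [Finset.card_singleton] at h2
  rw [hκ3] at hn h2
  rw [hUc] at h1
  omega

theorem brk_of_card (A : Data n) {U : Finset (ZMod n)} (h1 : 0 < (inK A U).card)
    (h2 : (inK A U).card < Nat.card A.K) : Brk A U := by
  classical
  constructor
  · obtain ⟨k, hk⟩ := Finset.card_pos.1 h1
    rw [mem_inK] at hk
    exact ⟨k, hk.2, hk.1⟩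
  · by_contra hcon
    push Not at hcon
    have h3 := card_filter_K A
    have h4 : Finset.univ.filter (fun y => y ∈ A.K) ⊆ inK A U := by
      intro y hy
      rw [Finset.mem_filter] at hy
      rw [mem_inK]
      exact ⟨hcon y hy.2, hy.2⟩
    have h5 := Finset.card_le_card h4
    rw [h3] at h5
    omega

theorem card_of_brk (A : Data n) {U : Finset (ZMod n)} (h : Brk A U) :
    0 < (inK A U).card ∧ (inK A U).card < Nat.card A.K := by
  obtain ⟨⟨k, hk1, hk2⟩, k', hk3, hk4⟩ := h
  exact ⟨Finset.card_pos.2 ⟨k, (mem_inK A U k).2 ⟨hk2, hk1⟩⟩, inK_card_lt A hk3 hk4⟩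

theorem inK_card_le (A : Data n) (U : Finset (ZMod n)) : (inK A U).card ≤ Nat.card A.K := by
  classical
  rw [← card_filter_K A]
  apply Finset.card_le_card
  intro y hy
  rw [mem_inK] at hy
  simpa using hy.2

/-- structure of a set of level `1` -/
theorem stage1 {A : Data n} {N : ℕ} (ih : IH A N) (hκ : Nat.card A.K = 3) (hD : 2 ≤ A.K.index)
    {R : Finset (ZMod n)} (hR : Pr A N R 1) :
    (R.card % 3 = (inK A (sh (-1) R)).card % 3) ∧
      (∀ y ∈ R, y + 1 ∉ A.K → ∀ k ∈ A.K, y + k ∈ R) ∧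
      (Brk A (sh (-1) R) → (0 : ZMod n) ∈ sh (-1) R ∧ A.u 0 ∉ sh (-1) R ∧
        Pr A N (sh (-1) R) (n - 1 + 1)) := by
  have hno : ∀ j : ℕ, 2 ≤ j → j ≤ A.K.index → ¬ Brk A (sh (-(j : ZMod n)) R) := by
    intro j hj1 hj2 hb
    have := (hR.cls ih (by omega) (by omega) hj2 hb).1
    omega
  obtain ⟨F, hF1, hF2, hF3, hF4⟩ := union_off A R hno
  have hdF := card_dvd_of_isUnion A.K F hF1
  rw [hκ] at hdF
  refine ⟨by omega, ?_, ?_⟩
  · intro y hy hy2 k hk
    exact hF2 (hF1 y ((hF3 y).2 ⟨hy, hy2⟩) k hk)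
  · intro hb
    have hb' : Brk A (sh (-((1 : ℕ) : ZMod n)) R) := by rwa [Nat.cast_one]
    obtain ⟨-, h2, h3, -, h5⟩ := hR.cls ih (by omega) le_rfl (by omega) hb'
    rw [Nat.cast_one] at h2 h3 h5
    exact ⟨h2, h3, h5⟩

/-- a set of level `1` of size divisible by `3` is a union -/
theorem union_of_mod {A : Data n} {N : ℕ} (ih : IH A N) (hκ : Nat.card A.K = 3)
    (hD : 2 ≤ A.K.index) {R : Finset (ZMod n)} (hR : Pr A N R 1) (h0 : R.card % 3 = 0) :
    IsUnion A.K R := by
  obtain ⟨h1, h2, -⟩ := stage1 ih hκ hD hR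
  have hb : ¬ Brk A (sh (-1) R) := by
    intro hb
    have := card_of_brk A hb
    omega
  intro y hy k hk
  by_cases hy2 : y + 1 ∈ A.K
  · by_contra hcon
    apply hb
    refine ⟨⟨y + 1, hy2, ?_⟩, y + 1 + k, A.K.add_mem hy2 hk, ?_⟩
    · rw [mem_sh]
      simpa using hy
    · rw [mem_sh]
      intro h3
      apply hcon
      convert h3 using 1
      ring
  · exact h2 y hy hy2 k hk

/-- the next marker -/
theorem next_marker {A : Data n} {N : ℕ} (ih : IH A N) (hκ : Nat.card A.K = 3)
    (hD : 2 ≤ A.K.index) {R : Finset (ZMod n)} (hR : Pr A N R 1) (r : ℕ) (hr : R.card % 3 = r)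
    (hr0 : r ≠ 0) : (0 : ZMod n) ∈ sh (-1) R ∧ A.u 0 ∉ sh (-1) R ∧
      Pr A N (sh (-1) R) (n - 1 + 1) ∧ (inK A (sh (-1) R)).card = r := by
  obtain ⟨h1, -, h3⟩ := stage1 ih hκ hD hR
  have h4 := inK_card_le A (sh (-1) R)
  rw [hκ] at h4
  have h5 : (inK A (sh (-1) R)).card = r := by omega
  obtain ⟨h6, h7, h8⟩ := h3 (brk_of_card A (by omega) (by omega))
  exact ⟨h6, h7, h8, h5⟩

theorem union_inter {G : AddSubgroup (ZMod n)} {X Y : Finset (ZMod n)} (hX : IsUnion G X)
    (hY : IsUnion G Y) : IsUnion G (X ∩ Y) := by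
  intro x hx k hk
  rw [Finset.mem_inter] at hx ⊢
  exact ⟨hX x hx.1 k hk, hY x hx.2 k hk⟩

/-- the part off `K` of the next marker -/
theorem off_union {A : Data n} {N : ℕ} (ih : IH A N) (hκ : Nat.card A.K = 3)
    (hD : 2 ≤ A.K.index) {R : Finset (ZMod n)} (hR : Pr A N R 1) :
    open Classical in IsUnion A.K ((sh (-1) R).filter (fun y => y ∉ A.K)) := by
  classical
  obtain ⟨-, h2, -⟩ := stage1 ih hκ hD hR
  intro y hy k hk
  rw [Finset.mem_filter, mem_sh] at hy ⊢
  refine ⟨?_, fun h3 => hy.2 ?_⟩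
  · have h3 := h2 _ hy.1 (by rw [neg_add_cancel_right]; exact hy.2) k hk
    convert h3 using 1
    ring
  · have := A.K.sub_mem h3 hk
    convert this using 1
    ring

theorem stab_eq {A : Data n} {N : ℕ} (ih : IH A N) (H3 : K3 A) {R : Finset (ZMod n)}
    (hR : Pr A N R 1) (hne : R.Nonempty) (hun : IsUnion A.K R)
    (hc : R.card + 3 ≤ A.K.index) : Stab R = A.K := by
  classical
  by_contra hcon
  have hle : A.K ≤ Stab R := (isUnion_iff _ _).1 hun
  have hlt : A.K < Stab R := lt_of_le_of_ne hle (fun h => hcon h.symm)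
  obtain ⟨ρ, h1, h2, h3⟩ := dims A (Stab R) hlt
  have hl := index_pos' (Stab R)
  set l := (Stab R).index with hl'
  have hlD : l + 1 ≤ A.K.index := by
    rw [h2]
    nlinarith
  have h4 : ∀ v ∈ V A (A.K.index - 1 - l), v ∈ Stab R := by
    intro v hv
    apply mem_Stab_of
    intro y hy
    obtain ⟨x, hx1, hx2, -⟩ := exists_small_rep (Stab R) y
    have hx3 : x ∈ R := by
      have := (mem_Stab R _).1 hx1 x
      rw [add_sub_cancel] at this
      exact this.1 hy
    have hx4 := hR.c1 ih (x := x.val) (j := A.K.index - 1 - l)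
      (by rw [ZMod.natCast_zmod_val]; exact hx3) (by omega) hv
    rw [ZMod.natCast_zmod_val] at hx4
    have := (mem_Stab R _).1 hx1 (x + v)
    rw [show x + v + (y - x) = y + v by ring] at this
    exact this.2 hx4
  have h5 := card_le_of_sub A (Stab R) _ h4
  have h6 := grow A (2 * A.K.index - 1) {dl A}
    (by
      intro t ht
      rw [Finset.mem_singleton] at ht
      rw [ht]
      exact dl_mem A)
    (by
      intro t ht
      rw [Finset.mem_singleton] at ht
      rw [ht]
      exact H3.haw) (A.K.index - 1 - l) (by omega)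
  rw [Finset.card_singleton, H3.hκ] at h6
  have h7 := le_card_of_isUnion ((isUnion_iff _ _).2 (le_refl (Stab R))) hne
  rw [h3, H3.hκ] at h5 h7
  have h8 : 4 ≤ l := by
    by_contra h9
    have h10 : l * ρ ≤ 3 * ρ := Nat.mul_le_mul_right _ (by omega)
    omega
  obtain ⟨e, he⟩ : ∃ e, l = e + 4 := ⟨l - 4, by omega⟩
  obtain ⟨r, hr⟩ : ∃ r, ρ = r + 2 := ⟨ρ - 2, by omega⟩
  rw [he, hr] at h2
  have h9 : (e + 4) * (r + 2) = e * r + 2 * e + 4 * r + 8 := by ring
  have h10 := Nat.zero_le (e * r)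
  omega

theorem one_notMem {A : Data n} (hD : 2 ≤ A.K.index) : (1 : ZMod n) ∉ A.K := by
  intro h
  have h1 := dvd_of_natCast_mem A.K (x := 1) (by rw [Nat.cast_one]; exact h)
  have := Nat.le_of_dvd one_pos h1
  omega

/-- the last configuration -/
theorem finalK {A : Data n} {N : ℕ} (ih : IH A N) (H3 : K3 A) (hD3 : 3 ≤ A.K.index)
    {U : Finset (ZMod n)} (hU : Pr A N U (n - 1 + 1)) (h0 : (0 : ZMod n) ∈ U) (hu : A.u 0 ∉ U)
    (hd : dl A ∈ U) (hUc : U.card = 3) (hU2 : ∀ y, A.σ (y - dl A) ∈ A.K → y ∈ U)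
    (hm : A.σ (-1) = dl A) (hR1 : A.σ (dl A - 1) ∈ U.erase 0) : False := by
  classical
  have hn := card_mul_index' A.K
  rw [H3.hκ] at hn
  have hdl := dl_ne_zero A (by rw [H3.hκ]; omega)
  have h1 : dl A - 1 ∈ U := by
    apply hU2
    rw [show dl A - 1 - dl A = -1 by ring, hm]
    exact dl_mem A
  have h1K := one_notMem (A := A) (by omega)
  have h10 : (1 : ZMod n) ≠ 0 := fun h => h1K (by rw [h]; exact A.K.zero_mem)
  have h2 : dl A - 1 ∉ A.K := by
    intro h
    apply h1K
    have := A.K.sub_mem (dl_mem A) h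
    convert this using 1
    ring
  have hUeq : U = {0, dl A, dl A - 1} := by
    symm
    apply Finset.eq_of_subset_of_card_le
    · intro y hy
      simp only [Finset.mem_insert, Finset.mem_singleton] at hy
      rcases hy with rfl | rfl | rfl
      · exact h0
      · exact hd
      · exact h1
    · rw [hUc, Finset.card_insert_of_notMem, Finset.card_insert_of_notMem,
        Finset.card_singleton]
      · rw [Finset.mem_singleton]
        intro h
        apply h10
        calc (1 : ZMod n) = dl A - (dl A - 1) := by ring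
          _ = 0 := by rw [← h, sub_self]
      · simp only [Finset.mem_insert, Finset.mem_singleton, not_or]
        exact ⟨fun h => hdl h.symm, fun h => h2 (by rw [← h]; exact A.K.zero_mem)⟩
  have hUmem : ∀ y, y ∈ U.erase 0 → y = dl A ∨ y = dl A - 1 := by
    intro y hy
    rw [Finset.mem_erase, hUeq] at hy
    simp only [Finset.mem_insert, Finset.mem_singleton] at hy
    rcases hy.2 with h | h | h
    · exact absurd h hy.1
    · exact Or.inl h
    · exact Or.inr h
  have h3 : A.σ (dl A - 1) = dl A - 1 := by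
    rcases hUmem _ hR1 with h | h
    · exfalso
      have h4 := A.σ.injective (h.trans hm.symm)
      apply hdl
      calc dl A = (dl A - 1) + 1 := by ring
        _ = 0 := by rw [h4]; ring
    · exact h
  have h4 := (ret_aux hU h0 hu (A.K.index - 1) (by
    intro s h1 h2 h3 h4
    have := h3.brk ih h4
    omega) 2 (by omega) (by omega)).1
  have h5 : dl A - 1 ∈ pull (A.σ ^ 2) (U.erase 0) := by
    rw [mem_pull, pow_two, Equiv.Perm.mul_apply, h3, h3, Finset.mem_erase]
    exact ⟨fun h => h2 (by rw [h]; exact A.K.zero_mem), h1⟩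
  have h6 : dl A - 1 + A.u 0 ∉ pull (A.σ ^ 2) (U.erase 0) := by
    rw [H3.hu, show dl A - 1 + -dl A = -1 by ring, mem_pull, pow_two, Equiv.Perm.mul_apply, hm]
    intro h
    rcases hUmem _ h with h | h
    · rcases H3.hS (dl A) (dl_mem A) (by rw [h]; exact dl_mem A) with h7 | h7
      · exact hdl h7
      · rw [h7] at hd
        exact hu hd
    · have h7 := A.σ.injective (h.trans h3.symm)
      apply h10
      calc (1 : ZMod n) = dl A - (dl A - 1) := by ring
        _ = 0 := by rw [← h7, sub_self]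
  have h7 := h4.exit ih h5 0 h6
  have h8 : (dl A - 1).val ≤ A.K.index - 1 := by
    have h9 : dl A - 1 = ((A.K.index - 1 : ℕ) : ZMod n) := by
      rw [Nat.cast_sub (by omega), Nat.cast_one]
      rfl
    rw [h9, ZMod.val_natCast]
    exact Nat.mod_le _ _
  omega

/-- the descent for `κ = 3` -/
theorem descent {A : Data n} {N : ℕ} (ih : IH A N) (H3 : K3 A) (m : ℕ) :
    ∀ (Z : Finset (ZMod n)) (a : ℕ), Z.card = m → Pr A N Z a → a ≤ 1 → Z.Nonempty →
      Stab Z = A.K → Z.card ≤ A.K.index → (a = 1 → ∀ y ∈ Z, y + 1 ∉ A.K) → False := by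
  classical
  induction m using Nat.strong_induction_on with
  | _ m ihm =>
    intro Z a hm hZ ha hne hst hZD hcl
    have hD := two_le_index A H3.hK
    have hκ := H3.hκ
    have hdl := dl_ne_zero A (by omega)
    have hun : IsUnion A.K Z := (isUnion_iff _ _).2 hst.ge
    have hdvd : 3 ∣ Z.card := by
      have := card_dvd_of_isUnion _ _ hun
      rwa [hκ] at this
    have hpos : 0 < Z.card := Finset.card_pos.2 hne
    obtain ⟨U, hUc, hU, h0, hu, hd, hUK, hU2⟩ := markerK ih H3.hK hZ hst (by omega)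
      (by
        intro y hy j h1 h2
        have h3 : j = 1 := by omega
        have h4 : a = 1 := by omega
        rw [h3, Nat.cast_one]
        exact hcl h4 y hy)
    have hR1 := hU.drop h0 hu
    have hR1c : (pull A.σ (U.erase 0)).card = Z.card - 1 := by
      rw [card_pull, Finset.card_erase_of_mem h0, hUc]
    set R1 := pull A.σ (U.erase 0) with hR1d
    obtain ⟨g0, gu, gP, gc⟩ := next_marker ih hκ hD hR1 2 (by omega) (by omega)
    have hG2 := off_union ih hκ hD hR1
    set U2 := sh (-1) R1 with hU2d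
    have hU2c : U2.card = Z.card - 1 := by rw [hU2d, card_sh, hR1c]
    have hR2 := gP.drop g0 gu
    have hR2c : (pull A.σ (U2.erase 0)).card = Z.card - 2 := by
      rw [card_pull, Finset.card_erase_of_mem g0, hU2c]
      omega
    set R2 := pull A.σ (U2.erase 0) with hR2d
    obtain ⟨f0, fu, fP, fc⟩ := next_marker ih hκ hD hR2 1 (by omega) (by omega)
    have hG3 := off_union ih hκ hD hR2
    set U3 := sh (-1) R2 with hU3d
    have hU3c : U3.card = Z.card - 2 := by rw [hU3d, card_sh, hR2c]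
    have hR3 := fP.drop f0 fu
    have hR3c : (pull A.σ (U3.erase 0)).card = Z.card - 3 := by
      rw [card_pull, Finset.card_erase_of_mem f0, hU3c]
      omega
    set R3 := pull A.σ (U3.erase 0) with hR3d
    have hun3 := union_of_mod ih hκ hD hR3 (by omega)
    -- `U3 ∩ K = {0}`
    have hU3K : ∀ y ∈ U3, y ∈ A.K → y = 0 := by
      intro y hy hyK
      obtain ⟨z, hz⟩ := Finset.card_eq_one.1 fc
      have h1 : y ∈ inK A U3 := (mem_inK _ _ _).2 ⟨hy, hyK⟩
      have h2 : (0 : ZMod n) ∈ inK A U3 := (mem_inK _ _ _).2 ⟨f0, A.K.zero_mem⟩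
      rw [hz, Finset.mem_singleton] at h1 h2
      rw [h1, h2]
    set G2 := U2.filter (fun y => y ∉ A.K) with hG2d
    set G3 := U3.filter (fun y => y ∉ A.K) with hG3d
    set T := sh (-1) R3 with hTd
    have hT : IsUnion A.K T := by
      intro y hy k hk
      rw [hTd, mem_sh] at hy ⊢
      have := hun3 _ hy k hk
      convert this using 1
      ring
    have c1 : (R2 ∩ R3).card = (G2 ∩ G3).card := by
      have e : R2 ∩ R3 = pull A.σ (G2 ∩ G3) := by
        ext y
        rw [Finset.mem_inter, hR2d, hR3d, mem_pull, mem_pull, mem_pull, Finset.mem_inter,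
          hG2d, hG3d, Finset.mem_erase, Finset.mem_erase, Finset.mem_filter, Finset.mem_filter]
        constructor
        · rintro ⟨⟨h1, h2⟩, -, h3⟩
          have h4 : A.σ y ∉ A.K := fun h5 => h1 (hU3K _ h3 h5)
          exact ⟨⟨h2, h4⟩, h3, h4⟩
        · rintro ⟨⟨h2, h4⟩, h3, -⟩
          have h1 : A.σ y ≠ 0 := fun h5 => h4 (by rw [h5]; exact A.K.zero_mem)
          exact ⟨⟨h1, h2⟩, h1, h3⟩
      rw [e, card_pull]
    have c2 : (R2 ∩ R3).card = (U3 ∩ T).card := by
      have e : U3 ∩ T = sh (-1) (R2 ∩ R3) := by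
        ext y
        rw [Finset.mem_inter, hU3d, hTd, mem_sh, mem_sh, mem_sh, Finset.mem_inter]
      rw [e, card_sh]
    have d1 := card_dvd_of_isUnion _ _ (union_inter hG2 hG3)
    have d2 := card_dvd_of_isUnion _ _ (union_inter hG3 hT)
    rw [hκ] at d1 d2
    have h0T : (0 : ZMod n) ∉ T := by
      intro h
      have e : U3 ∩ T = insert 0 (G3 ∩ T) := by
        ext y
        rw [Finset.mem_insert, Finset.mem_inter, Finset.mem_inter, hG3d, Finset.mem_filter]
        constructor
        · rintro ⟨h1, h2⟩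
          by_cases hy : y ∈ A.K
          · exact Or.inl (hU3K y h1 hy)
          · exact Or.inr ⟨⟨h1, hy⟩, h2⟩
        · rintro (rfl | ⟨⟨h1, -⟩, h2⟩)
          · exact ⟨f0, h⟩
          · exact ⟨h1, h2⟩
      have h2 : (U3 ∩ T).card = (G3 ∩ T).card + 1 := by
        rw [e, Finset.card_insert_of_notMem]
        rw [Finset.mem_inter, hG3d, Finset.mem_filter]
        rintro ⟨⟨-, h3⟩, -⟩
        exact h3 A.K.zero_mem
      omega
    have hcl3 : ∀ y ∈ R3, y + 1 ∉ A.K := by
      intro y hy hyK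
      apply h0T
      have h1 : y + 1 ∈ T := by
        rw [hTd, mem_sh]
        simpa using hy
      have := hT _ h1 _ (A.K.neg_mem hyK)
      rwa [add_neg_cancel] at this
    rcases Finset.eq_empty_or_nonempty R3 with he | hne3
    · -- the last configuration
      have hZ3 : Z.card = 3 := by
        rw [he, Finset.card_empty] at hR3c
        have := Nat.le_of_dvd hpos hdvd
        omega
      have hdl2 : dl A ≠ A.u 0 := by
        intro h
        rw [H3.hu] at h
        have h1 := (mul_dl_eq_zero A 2).1 (by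
          push_cast
          calc (2 : ZMod n) * dl A = dl A + dl A := by ring
            _ = 0 := by
              nth_rewrite 1 [h]
              ring)
        rw [hκ] at h1
        omega
      have hdU2 : dl A ∈ U2 :=
        all_but_one A (by omega) gu (by rw [gc, hκ]) (dl_mem A) hdl2
      have hU2e : ∀ y ∈ U2, y ≠ 0 → y = dl A := by
        intro y hy hy0
        by_contra hcon
        have h1 : ({0, dl A, y} : Finset (ZMod n)) ⊆ U2 := by
          intro z hz
          simp only [Finset.mem_insert, Finset.mem_singleton] at hz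
          rcases hz with rfl | rfl | rfl
          · exact g0
          · exact hdU2
          · exact hy
        have h2 := Finset.card_le_card h1
        rw [Finset.card_insert_of_notMem, Finset.card_insert_of_notMem,
          Finset.card_singleton] at h2
        · omega
        · rw [Finset.mem_singleton]
          exact fun h => hcon h.symm
        · simp only [Finset.mem_insert, Finset.mem_singleton, not_or]
          exact ⟨fun h => hdl h.symm, fun h => hy0 h.symm⟩
      have hm1 : A.σ (-1) = dl A := by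
        have h1 : (-1 : ZMod n) ∈ R2 := by
          have := f0
          rw [hU3d, mem_sh, zero_add] at this
          exact this
        rw [hR2d, mem_pull, Finset.mem_erase] at h1
        exact hU2e _ h1.2 h1.1
      refine finalK ih H3 (by omega) hU h0 hu hd (by omega) hU2 hm1 ?_
      have h1 : dl A - 1 ∈ R1 := by
        have := hdU2
        rw [hU2d, mem_sh, ← sub_eq_add_neg] at this
        exact this
      rw [hR1d, mem_pull] at h1
      exact h1
    · have hst3 := stab_eq ih H3 hR3 hne3 hun3 (by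
        have := Nat.le_of_dvd hpos hdvd
        omega)
      exact ihm R3.card (by
        have := Nat.le_of_dvd hpos hdvd
        omega) R3 1 rfl hR3 le_rfl hne3 hst3 (by omega) (fun _ => hcl3)

/-- mode K -/
theorem modeK (A : Data n) (Y : Finset (ZMod n)) (ih : IH A Y.card) (hY : Pr A Y.card Y 0)
    (hne : Y.Nonempty) (hK : A.K ≠ ⊤) (hst : Stab Y = A.K) : False := by
  obtain ⟨H3, h1⟩ := first ih hY hne hK hst
  exact descent ih H3 Y.card Y 0 rfl hY (by omega) hne hst h1 (fun h => by omega)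

end Pool.Agent.Helper57.ModeK
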