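import Pool.Agent.Helper4.DonModel

set_option autoImplicit false
set_option linter.unusedSectionVars false

/-!
MP_cc0723_lc: paths, removal of tokens, subgroups of `ZMod n`, the chain of subgroups.
-/

namespace Pool.Agent.Helper57.Don

open Pool.Agent.Helper4.Don

variable {n : ℕ} [NeZero n]

/-- from `U` one can go to `V` at cost `c` -/
def Pth (A : Data n) (U V : Finset (ZMod n)) (c : ℕ) : Prop :=
  ∀ L : ℕ, Cst A.f V L → Cst A.f U (L + c)

/-- `r` tokens of `U` can be removed at cost `c` -/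
def Rem (A : Data n) (U : Finset (ZMod n)) (r c : ℕ) : Prop :=
  ∃ V : Finset (ZMod n), V.card + r = U.card ∧ Pth A U V c

theorem Pth.refl (A : Data n) (U : Finset (ZMod n)) : Pth A U U 0 := fun _ h => h

theorem Pth.trans {A : Data n} {U V W : Finset (ZMod n)} {c c' : ℕ} (h : Pth A U V c)
    (h' : Pth A V W c') : Pth A U W (c + c') := by
  intro L hL
  exact (h _ (h' L hL)).mono (by omega)

theorem Pth.mono {A : Data n} {U V : Finset (ZMod n)} {c c' : ℕ} (h : Pth A U V c)
    (hc : c ≤ c') : Pth A U V c' := fun L hL => (h L hL).mono (by omega)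

theorem Pth.rot (A : Data n) (U : Finset (ZMod n)) (x : ZMod n) : Pth A U (sh x U) x.val :=
  fun _ hL => Cst.rot x hL

theorem Pth.keep (A : Data n) {U : Finset (ZMod n)} (h0 : (0 : ZMod n) ∈ U) (i : ℕ) :
    Pth A U (pull (A.σ ^ i) U) i := fun _ hL => Cst.keep A h0 i hL

theorem Pth.side (A : Data n) {U : Finset (ZMod n)} {x : ZMod n} (hx : x ∈ U) (i : ℕ) :
    Pth A U (pull (A.σ ^ i) (sh x U)) (x.val + i) := by
  intro L hL
  exact (Cst.side A hx i hL).mono (by omega)

theorem Pth.exitAt (A : Data n) {U : Finset (ZMod n)} {x : ZMod n} (hx : x ∈ U) (i : ℕ)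
    (hi : x + A.u i ∉ U) :
    Pth A U ((pull (A.σ ^ (i + 1)) (sh x U)).erase 0) (x.val + (i + 1)) := by
  intro L hL
  exact (Cst.exitAt A hx i hi hL).mono (by omega)

theorem card_side (A : Data n) (U : Finset (ZMod n)) (x : ZMod n) (i : ℕ) :
    (pull (A.σ ^ i) (sh x U)).card = U.card := by rw [card_pull, card_sh]

theorem Rem.mono {A : Data n} {U : Finset (ZMod n)} {r c c' : ℕ} (h : Rem A U r c)
    (hc : c ≤ c') : Rem A U r c' := by
  obtain ⟨V, h1, h2⟩ := h
  exact ⟨V, h1, h2.mono hc⟩

/-- removal after a path that removes nothing -/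
theorem Rem.of_pth {A : Data n} {U V : Finset (ZMod n)} {r c c' : ℕ} (h : Pth A U V c)
    (hV : V.card = U.card) (h' : Rem A V r c') : Rem A U r (c + c') := by
  obtain ⟨W, h1, h2⟩ := h'
  exact ⟨W, by omega, h.trans h2⟩

theorem Rem.exit (A : Data n) {U : Finset (ZMod n)} {x : ZMod n} (hx : x ∈ U) (i : ℕ)
    (hi : x + A.u i ∉ U) : Rem A U 1 (x.val + (i + 1)) := by
  refine ⟨_, ?_, Pth.exitAt A hx i hi⟩
  have h1 := card_exitAt A hx i
  have h2 : 0 < U.card := Finset.card_pos.2 ⟨x, hx⟩
  omega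

theorem Rem.trans {A : Data n} {U : Finset (ZMod n)} {r c r' c' : ℕ} (h : Rem A U r c)
    (h' : ∀ V : Finset (ZMod n), V.card + r = U.card → Rem A V r' c') :
    Rem A U (r + r') (c + c') := by
  obtain ⟨V, h1, h2⟩ := h
  obtain ⟨W, h3, h4⟩ := h' V h1
  exact ⟨W, by omega, h2.trans h4⟩

theorem Rem.cst {A : Data n} {U : Finset (ZMod n)} {r c L : ℕ} (h : Rem A U r c)
    (h' : ∀ V : Finset (ZMod n), V.card + r = U.card → Cst A.f V L) :
    Cst A.f U (L + c) := by
  obtain ⟨V, h1, h2⟩ := h
  exact h2 L (h' V h1)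

theorem rem_of_not_union (A : Data n) (U : Finset (ZMod n)) (hU : ¬ IsUnion A.K U) :
    Rem A U 1 n := by
  obtain ⟨x, hx, i, hi, hc⟩ := exists_exit A U hU
  exact (Rem.exit A hx i hi).mono hc

/-! ### Subgroups of `ZMod n` -/

theorem index_pos (H : AddSubgroup (ZMod n)) : 0 < H.index :=
  Nat.pos_of_ne_zero AddSubgroup.index_ne_zero_of_finite

theorem index_mul_card (H : AddSubgroup (ZMod n)) : H.index * Nat.card H = n := by
  rw [AddSubgroup.index_mul_card, Nat.card_zmod]

theorem index_dvd (H : AddSubgroup (ZMod n)) : H.index ∣ n := ⟨_, (index_mul_card H).symm⟩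

theorem index_cast_mem (H : AddSubgroup (ZMod n)) : ((H.index : ℕ) : ZMod n) ∈ H := by
  have := AddSubgroup.nsmul_index_mem H (1 : ZMod n)
  simpa using this

theorem natCast_mem_of_dvd (H : AddSubgroup (ZMod n)) {m : ℕ} (h : H.index ∣ m) :
    ((m : ℕ) : ZMod n) ∈ H := by
  obtain ⟨c, rfl⟩ := h
  have : ((H.index * c : ℕ) : ZMod n) = c • ((H.index : ℕ) : ZMod n) := by
    rw [nsmul_eq_mul]; push_cast; ring
  rw [this]
  exact H.nsmul_mem (index_cast_mem H) c

theorem dvd_of_natCast_mem (H : AddSubgroup (ZMod n)) {m : ℕ} (h : ((m : ℕ) : ZMod n) ∈ H) :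
    H.index ∣ m := by
  set r := m % H.index with hr
  have hr1 : ((r : ℕ) : ZMod n) ∈ H := by
    have h1 : ((m : ℕ) : ZMod n) = ((r : ℕ) : ZMod n) + ((H.index * (m / H.index) : ℕ) : ZMod n) := by
      rw [← Nat.cast_add, hr, Nat.mod_add_div]
    have h2 := natCast_mem_of_dvd H (Dvd.intro (m / H.index) rfl)
    have h3 := H.sub_mem h h2
    rwa [h1, add_sub_cancel_right] at h3
  rcases Nat.eq_zero_or_pos r with h0 | h0
  · exact Nat.dvd_of_mod_eq_zero h0
  · exfalso
    have hlt : r < H.index := Nat.mod_lt _ (index_pos H)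
    -- every class has a representative below r
    let F : Fin r → ZMod n ⧸ H := fun j => QuotientAddGroup.mk ((j.1 : ℕ) : ZMod n)
    have hF : Function.Surjective F := by
      intro z
      obtain ⟨y, rfl⟩ := QuotientAddGroup.mk_surjective z
      refine ⟨⟨y.val % r, Nat.mod_lt _ h0⟩, ?_⟩
      rw [QuotientAddGroup.eq]
      have h1 : y = ((y.val % r : ℕ) : ZMod n) + (y.val / r) • ((r : ℕ) : ZMod n) := by
        rw [nsmul_eq_mul, ← Nat.cast_mul, ← Nat.cast_add, mul_comm, Nat.mod_add_div,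
          ZMod.natCast_zmod_val]
      have h2 : -((y.val % r : ℕ) : ZMod n) + y = (y.val / r) • ((r : ℕ) : ZMod n) := by
        rw [neg_add_eq_iff_eq_add]
        exact h1
      have h4 : -((y.val % r : ℕ) : ZMod n) + y ∈ H := by
        rw [h2]
        exact H.nsmul_mem hr1 _
      exact h4
    have h1 := Nat.card_le_card_of_surjective F hF
    have h2 : Nat.card (ZMod n ⧸ H) = H.index := rfl
    rw [h2, Nat.card_eq_fintype_card, Fintype.card_fin] at h1
    omega

theorem mem_iff_dvd (H : AddSubgroup (ZMod n)) (x : ZMod n) : x ∈ H ↔ H.index ∣ x.val := by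
  constructor
  · intro h
    apply dvd_of_natCast_mem H
    rwa [ZMod.natCast_zmod_val]
  · intro h
    have := natCast_mem_of_dvd H h
    rwa [ZMod.natCast_zmod_val] at this

/-- elements of a subgroup are at most `n - index` -/
theorem val_add_index_le (H : AddSubgroup (ZMod n)) {x : ZMod n} (hx : x ∈ H) {m : ℕ}
    (hm : H.index ∣ m) (h : x.val < m) : x.val + H.index ≤ m := by
  rw [mem_iff_dvd] at hx
  obtain ⟨a, ha⟩ := hx
  obtain ⟨b, rfl⟩ := hm
  rw [ha] at h ⊢
  have h1 : a < b := lt_of_mul_lt_mul_left h (Nat.zero_le _)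
  calc H.index * a + H.index = H.index * (a + 1) := by ring
    _ ≤ H.index * b := Nat.mul_le_mul_left _ h1

theorem val_add_index_le_n (H : AddSubgroup (ZMod n)) {x : ZMod n} (hx : x ∈ H) :
    x.val + H.index ≤ n := val_add_index_le H hx (index_dvd H) x.val_lt

theorem index_dvd_index {H K : AddSubgroup (ZMod n)} (h : H ≤ K) : K.index ∣ H.index :=
  AddSubgroup.index_dvd_of_le h

/-- reduce a representative inside a bigger subgroup -/
theorem exists_small_rep' {H K : AddSubgroup (ZMod n)} (hHK : H ≤ K) {x : ZMod n} (hx : x ∈ K) :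
    ∃ y : ZMod n, x - y ∈ H ∧ y ∈ K ∧ y.val + K.index ≤ H.index := by
  obtain ⟨y, hy1, hy2, -⟩ := exists_small_rep H x
  have hyK : y ∈ K := by
    have := K.sub_mem hx (hHK hy1)
    rwa [sub_sub_cancel] at this
  exact ⟨y, hy1, hyK, val_add_index_le K hyK (index_dvd_index hHK) hy2⟩

theorem neg_one_val : (-1 : ZMod n).val = n - 1 := by
  obtain ⟨m, rfl⟩ : ∃ m, n = m + 1 := ⟨n - 1, by have := NeZero.pos n; omega⟩
  rw [ZMod.val_neg_one]
  omega

theorem eq_neg_one_of_val {x : ZMod n} (h : n ≤ x.val + 1) : x = -1 := by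
  apply ZMod.val_injective n
  rw [neg_one_val]
  have := x.val_lt
  omega

/-! ### Unions of cosets -/

theorem union_mono {H K : AddSubgroup (ZMod n)} (h : H ≤ K) {U : Finset (ZMod n)}
    (hU : IsUnion K U) : IsUnion H U := fun x hx y hy => hU x hx y (h hy)

theorem union_mem_iff {H : AddSubgroup (ZMod n)} {U : Finset (ZMod n)} (hU : IsUnion H U)
    {x y : ZMod n} (h : x - y ∈ H) : x ∈ U ↔ y ∈ U := by
  constructor
  · intro hx
    have := hU x hx (-(x - y)) (H.neg_mem h)
    rwa [show x + -(x - y) = y by ring] at this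
  · intro hy
    have := hU y hy (x - y) h
    rwa [show y + (x - y) = x by ring] at this

theorem union_compl {H : AddSubgroup (ZMod n)} {U : Finset (ZMod n)} (hU : IsUnion H U) :
    IsUnion H Uᶜ := by
  intro x hx h hh
  rw [Finset.mem_compl] at hx ⊢
  intro h1
  exact hx ((union_mem_iff hU (x := x + h) (y := x) (by simpa using hh)).1 h1)

theorem union_inter {H : AddSubgroup (ZMod n)} {U V : Finset (ZMod n)} (hU : IsUnion H U)
    (hV : IsUnion H V) : IsUnion H (U ∩ V) := by
  intro x hx h hh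
  rw [Finset.mem_inter] at hx ⊢
  exact ⟨hU x hx.1 h hh, hV x hx.2 h hh⟩

theorem union_sh {H : AddSubgroup (ZMod n)} {U : Finset (ZMod n)} (hU : IsUnion H U)
    (y : ZMod n) : IsUnion H (sh y U) := by
  intro x hx h hh
  rw [mem_sh] at hx ⊢
  have := hU _ hx h hh
  rwa [show x + h + y = x + y + h by ring]

/-- the size of a union of cosets -/
theorem union_card_dvd {H : AddSubgroup (ZMod n)} {U : Finset (ZMod n)} (hU : IsUnion H U) :
    Nat.card H ∣ U.card := by
  classical
  have key : ∀ m : ℕ, ∀ V : Finset (ZMod n), V.card = m → IsUnion H V → Nat.card H ∣ m := by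
    intro m
    induction m using Nat.strong_induction_on with
    | _ m ih =>
      intro V hV hVu
      rcases Finset.eq_empty_or_nonempty V with rfl | ⟨x, hx⟩
      · rw [Finset.card_empty] at hV
        rw [← hV]
        exact dvd_zero _
      · set C : Finset (ZMod n) := Finset.univ.filter (fun y => y - x ∈ H) with hC
        have hCV : C ⊆ V := by
          intro y hy
          rw [hC, Finset.mem_filter] at hy
          exact (union_mem_iff hVu hy.2).2 hx
        have hCcard : C.card = Nat.card H := by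
          rw [Nat.card_eq_fintype_card, ← Finset.card_univ]
          symm
          apply Finset.card_bij (i := fun (h : H) _ => h.1 + x)
          · intro h _
            rw [hC, Finset.mem_filter]
            refine ⟨Finset.mem_univ _, ?_⟩
            rw [add_sub_cancel_right]
            exact h.2
          · intro a _ b _ hab
            apply Subtype.ext
            exact add_right_cancel hab
          · intro y hy
            rw [hC, Finset.mem_filter] at hy
            exact ⟨⟨y - x, hy.2⟩, Finset.mem_univ _, by simp⟩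
        have hu : IsUnion H (V \ C) := by
          intro y hy h hh
          rw [Finset.mem_sdiff] at hy ⊢
          refine ⟨hVu y hy.1 h hh, ?_⟩
          intro h1
          apply hy.2
          rw [hC, Finset.mem_filter] at h1 ⊢
          refine ⟨Finset.mem_univ _, ?_⟩
          have := H.sub_mem h1.2 hh
          rwa [show y + h - x - h = y - x by ring] at this
        have hcard : (V \ C).card = m - Nat.card H := by
          rw [Finset.card_sdiff_of_subset hCV, hV, hCcard]
        have hpos : 0 < Nat.card H := Nat.card_pos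
        have hle : Nat.card H ≤ m := by
          rw [← hV, ← hCcard]
          exact Finset.card_le_card hCV
        have h1 := ih (m - Nat.card H) (by omega) (V \ C) hcard hu
        have h2 := Nat.dvd_add h1 (dvd_refl (Nat.card H))
        rwa [Nat.sub_add_cancel hle] at h2
  exact key U.card U rfl hU

/-- (E0) exits inside a subgroup -/
theorem exists_exit_in (A : Data n) (U : Finset (ZMod n)) (H : AddSubgroup (ZMod n))
    (hH : A.K ≤ H) (hU : ∃ x ∈ U, x ∈ H ∧ ∃ h ∈ A.K, x + h ∉ U) :
    ∃ x ∈ U, x ∈ H ∧ ∃ i : ℕ, x + A.u i ∉ U ∧ x.val + (i + 1) + H.index ≤ n + 1 := by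
  classical
  set V : Finset (ZMod n) := U.filter (fun y => y ∈ H) with hV
  have hVn : ¬ IsUnion A.K V := by
    intro h
    obtain ⟨x, hx, hxH, k, hk, hxk⟩ := hU
    have h1 := h x (by rw [hV, Finset.mem_filter]; exact ⟨hx, hxH⟩) k hk
    rw [hV, Finset.mem_filter] at h1
    exact hxk h1.1
  obtain ⟨i, -, h2, x, h3, h4, h5⟩ := exists_exit' A V hVn
  have hui : ∀ i, A.u i ∈ A.K := fun i => AddSubgroup.subset_closure ⟨i, rfl⟩
  have h3' := h3
  rw [hV, Finset.mem_filter] at h3'
  refine ⟨x, h3'.1, h3'.2, i, ?_, ?_⟩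
  · intro h
    apply h4
    rw [hV, Finset.mem_filter]
    exact ⟨h, H.add_mem h3'.2 (hH (hui i))⟩
  · have hHi : A.H i ≤ H := by
      refine le_trans ?_ hH
      unfold Data.H
      rw [AddSubgroup.closure_le]
      rintro _ ⟨j, -, rfl⟩
      exact hui j
    have h6 := val_add_index_le H h3'.2 (index_dvd_index hHi) h5
    have h7 : (A.H i).index * Nat.card (A.H i) = n := index_mul_card _
    have h8 := add_le_of_mul_eq (Nat.pos_of_ne_zero (NeZero.ne n)) h7
    omega

/-! ### The chain -/

/-- `K_0 = K`, `K_{i+1} = <K_i, σ(K_i)>` -/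
def Kc (A : Data n) : ℕ → AddSubgroup (ZMod n)
  | 0 => A.K
  | i + 1 => Kc A i ⊔ AddSubgroup.closure (A.σ '' (Kc A i : Set (ZMod n)))

theorem Kc_le_succ (A : Data n) (i : ℕ) : Kc A i ≤ Kc A (i + 1) := le_sup_left

theorem Kc_mono (A : Data n) {i j : ℕ} (h : i ≤ j) : Kc A i ≤ Kc A j := by
  induction j, h using Nat.le_induction with
  | base => exact le_refl _
  | succ j _ ih => exact ih.trans (Kc_le_succ A j)

theorem K_le_Kc (A : Data n) (i : ℕ) : A.K ≤ Kc A i := Kc_mono A (Nat.zero_le i)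

theorem σ_mem_Kc_succ (A : Data n) {i : ℕ} {g : ZMod n} (hg : g ∈ Kc A i) :
    A.σ g ∈ Kc A (i + 1) :=
  (le_sup_right : _ ≤ Kc A (i + 1)) (AddSubgroup.subset_closure ⟨g, hg, rfl⟩)

theorem f0_mem_K (A : Data n) : A.f 0 ∈ A.K := by
  have : A.u 0 ∈ A.K := AddSubgroup.subset_closure ⟨0, rfl⟩
  simpa [Data.u] using this

/-- a subgroup above `K` different from `⊤` is not `σ`-closed -/
theorem exists_σ_notMem (A : Data n) (H : AddSubgroup (ZMod n)) (hK : A.K ≤ H) (hH : H ≠ ⊤) :
    ∃ x ∈ H, A.σ x ∉ H := by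
  obtain ⟨x, hx, hfx⟩ := A.hCR H hH
  refine ⟨x, hx, ?_⟩
  rcases eq_or_ne x 0 with rfl | hx0
  · exact absurd (hK (f0_mem_K A)) hfx
  · rwa [← A.hf x hx0]

theorem Kc_lt_succ (A : Data n) {i : ℕ} (h : Kc A i ≠ ⊤) : Kc A i < Kc A (i + 1) := by
  obtain ⟨x, hx, hσ⟩ := exists_σ_notMem A (Kc A i) (K_le_Kc A i) h
  refine lt_of_le_of_ne (Kc_le_succ A i) ?_
  intro h1
  apply hσ
  rw [h1]
  exact σ_mem_Kc_succ A hx

end Pool.Agent.Helper57.Don
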