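import Pool.Agent.Helper57.DonPath
import Pool.Agent.Helper4.DonTermA

set_option autoImplicit false
set_option linter.unusedSectionVars false

/-!
MP_cc0723_lc, case S: every element of `K` is reached from `K` within `D - 2` steps.
-/

namespace Pool.Agent.Helper57.CaseS

open Pool.Agent.Helper4.Don
open Pool.Agent.Helper57.Don (Pth Rem Kc exists_exit_in rem_of_not_union exists_small_rep'
  Kc_mono K_le_Kc σ_mem_Kc_succ Kc_lt_succ union_card_dvd neg_one_val eq_neg_one_of_val)

variable {n : ℕ} [NeZero n]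

/-! ### Costs -/

/-- the cost of `X` is at most `n |X| - m` -/
def C (A : Data n) (X : Finset (ZMod n)) (m : ℕ) : Prop :=
  ∃ L : ℕ, L + m ≤ n * X.card ∧ Cst A.f X L

theorem C.cst {A : Data n} {X : Finset (ZMod n)} {m : ℕ} (h : C A X m) :
    Cst A.f X (n * X.card) := by
  obtain ⟨L, h1, h2⟩ := h
  exact h2.mono (by omega)

theorem C.of_rem {A : Data n} {X : Finset (ZMod n)} {r c m m' : ℕ} (h : Rem A X r c)
    (hV : ∀ V : Finset (ZMod n), V.card + r = X.card → C A V m')
    (hc : c + m ≤ n * r + m') : C A X m := by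
  obtain ⟨V, h1, h2⟩ := h
  obtain ⟨L, h3, h4⟩ := hV V h1
  refine ⟨L + c, ?_, h2 L h4⟩
  rw [← h1, Nat.mul_add]
  omega

/-! ### The core: a short token -/

/-- exit from a broken set -/
theorem rem_of_brk (A : Data n) {Z : Finset (ZMod n)} (hb : Brk A Z) :
    Rem A Z 1 (n + 1 - A.K.index) := by
  obtain ⟨⟨k, hk1, hk2⟩, k', hk3, hk4⟩ := hb
  obtain ⟨x, hx1, -, i, hi, hc⟩ := exists_exit_in A Z A.K le_rfl
    ⟨k, hk2, hk1, k' - k, A.K.sub_mem hk3 hk1, by rwa [add_sub_cancel]⟩
  exact (Rem.exit A hx1 i hi).mono (by omega)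

theorem core (A : Data n) {U : Finset (ZMod n)} (h0 : (0 : ZMod n) ∈ U) (hu : A.u 0 ∉ U)
    {t : ZMod n} (ht : t ∈ U) (ht0 : t ≠ 0) (hS : ¬ Away A (A.K.index - 2) t) :
    Rem A U 2 (n - 1) := by
  classical
  have hDn : A.K.index ≤ n := D_le_n A
  have hex : ∃ s, 1 ≤ s ∧ ∃ k ∈ A.K, (A.σ ^ s) k ∈ U ∧ (A.σ ^ s) k ≠ 0 := by
    by_contra hcon
    apply hS
    intro s hs1 _ k hk he
    exact hcon ⟨s, hs1, k, hk, by rw [he]; exact ht, by rw [he]; exact ht0⟩
  obtain ⟨s, ⟨hs1, k, hk, hkU, hk0⟩, hmin⟩ :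
      ∃ s, (1 ≤ s ∧ ∃ k ∈ A.K, (A.σ ^ s) k ∈ U ∧ (A.σ ^ s) k ≠ 0) ∧
        ∀ s' < s, ¬ (1 ≤ s' ∧ ∃ k ∈ A.K, (A.σ ^ s') k ∈ U ∧ (A.σ ^ s') k ≠ 0) :=
    ⟨Nat.find hex, Nat.find_spec hex, fun s' hs' => Nat.find_min hex hs'⟩
  have hsD : s ≤ A.K.index - 2 := by
    by_contra hcon
    apply hS
    intro s' hs1' hs2' k' hk' he
    exact hmin s' (by omega) ⟨hs1', k', hk', by rw [he]; exact ht, by rw [he]; exact ht0⟩
  obtain ⟨i, rfl⟩ : ∃ i, s = i + 1 := ⟨s - 1, by omega⟩
  have hui : A.u i ∉ U := by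
    rcases Nat.eq_zero_or_pos i with rfl | hi
    · exact hu
    · intro h1
      apply hmin i (by omega)
      refine ⟨hi, A.u 0, A.u_mem_K 0, ?_⟩
      have e : (A.σ ^ i) (A.u 0) = A.u i := by
        rw [← A.u_add, add_zero]
      rw [e]
      exact ⟨h1, A.u_ne_zero i⟩
  set V := (pull (A.σ ^ (i + 1)) U).erase 0 with hV
  have hp : Pth A U V (i + 1) := fun L hL => Cst.exit A h0 i hui hL
  have hc : V.card + 1 = U.card := by
    rw [hV, Finset.card_erase_of_mem, card_pull]
    · have : 0 < U.card := Finset.card_pos.2 ⟨0, h0⟩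
      omega
    · rw [mem_pull, A.pow_zero']
      exact h0
  have hb : Brk A V := by
    refine ⟨⟨k, hk, ?_⟩, 0, A.K.zero_mem, by simp [hV]⟩
    rw [hV, Finset.mem_erase, mem_pull]
    refine ⟨?_, hkU⟩
    rintro rfl
    exact hk0 (A.pow_zero' _)
  obtain ⟨T, hT1, hT2⟩ := rem_of_brk A hb
  exact ⟨T, by omega, (hp.trans hT2).mono (by omega)⟩

/-- sets of size `i mod κ`, `2 ≤ i < κ` -/
theorem high (A : Data n) (hS : ∀ k ∈ A.K, ¬ Away A (A.K.index - 2) k) (hD : 2 ≤ A.K.index)
    {W : Finset (ZMod n)} {b i : ℕ} (hc : W.card = Nat.card A.K * b + i) (hi : 2 ≤ i)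
    (hi2 : i < Nat.card A.K) : Rem A W 1 (n - 1) ∨ Rem A W 2 (2 * n - 2) := by
  classical
  have hDn : A.K.index ≤ n := D_le_n A
  by_cases hbig : ∃ j : ℕ, 2 ≤ j ∧ j ≤ A.K.index ∧ Brk A (sh (-(j : ZMod n)) W)
  · left
    obtain ⟨j, hj1, hj2, ⟨k, hk1, hk2⟩, k', hk3, hk4⟩ := hbig
    have hb' : Brk A (sh ((A.K.index - j : ℕ) : ZMod n) W) := by
      refine ⟨⟨k - (A.K.index : ZMod n), A.K.sub_mem hk1 (index_mem' _), ?_⟩,
        k' - (A.K.index : ZMod n), A.K.sub_mem hk3 (index_mem' _), ?_⟩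
      · rw [mem_sh] at hk2 ⊢
        rw [Nat.cast_sub hj2]
        convert hk2 using 1
        ring
      · rw [mem_sh] at hk4 ⊢
        rw [Nat.cast_sub hj2]
        convert hk4 using 2
        ring
    have h1 : Pth A W (sh ((A.K.index - j : ℕ) : ZMod n) W) (A.K.index - j) :=
      fun L hL => Cst.rot_nat _ hL
    exact (Rem.of_pth h1 (card_sh _ _) (rem_of_brk A hb')).mono (by omega)
  · push Not at hbig
    obtain ⟨F, hF1, -, -, hF4⟩ := union_off A W hbig
    obtain ⟨c, hcF⟩ := card_dvd_of_isUnion A.K F hF1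
    have hle : (inK A (sh (-1) W)).card ≤ Nat.card A.K := by
      rw [← card_filter_K A]
      apply Finset.card_le_card
      intro y hy
      rw [mem_inK] at hy
      simpa using hy.2
    have hr : (inK A (sh (-1) W)).card = i := by
      have h1 : Nat.card A.K * b + i = Nat.card A.K * c + (inK A (sh (-1) W)).card := by omega
      rcases lt_trichotomy b c with h2 | h2 | h2
      · have := Nat.mul_le_mul_left (Nat.card A.K) (Nat.succ_le_of_lt h2)
        rw [Nat.mul_succ] at this
        omega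
      · subst h2
        omega
      · have := Nat.mul_le_mul_left (Nat.card A.K) (Nat.succ_le_of_lt h2)
        rw [Nat.mul_succ] at this
        omega
    -- the class `-1` is broken
    have hone : 1 < (inK A (sh (-1) W)).card := by omega
    obtain ⟨t, ht, t', ht', htt⟩ := Finset.one_lt_card.1 hone
    have hex2 : ∃ k ∈ A.K, k ∉ sh (-1) W := by
      by_contra hcon
      push Not at hcon
      have h3 : Finset.univ.filter (fun y => y ∈ A.K) ⊆ inK A (sh (-1) W) := by
        intro y hy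
        rw [Finset.mem_filter] at hy
        rw [mem_inK]
        exact ⟨hcon y hy.2, hy.2⟩
      have h5 := Finset.card_le_card h3
      rw [card_filter_K A] at h5
      omega
    obtain ⟨k', hk3, hk4⟩ := hex2
    rw [mem_inK, mem_sh] at ht
    have hb' : Brk A (sh ((A.K.index - 1 : ℕ) : ZMod n) W) := by
      refine ⟨⟨t - (A.K.index : ZMod n), A.K.sub_mem ht.2 (index_mem' _), ?_⟩,
        k' - (A.K.index : ZMod n), A.K.sub_mem hk3 (index_mem' _), ?_⟩
      · rw [mem_sh, Nat.cast_sub (by omega), Nat.cast_one]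
        convert ht.1 using 1
        ring
      · rw [mem_sh] at hk4 ⊢
        rw [Nat.cast_sub (by omega), Nat.cast_one]
        convert hk4 using 2
        ring
    have h1 : Pth A W (sh ((A.K.index - 1 : ℕ) : ZMod n) W) (A.K.index - 1) :=
      fun L hL => Cst.rot_nat _ hL
    rcases brk_exit A _ hb' with ⟨x, hx1, hx2, hx3⟩ | ⟨l, x, hx1, hx2, hx3, hx4⟩
    · have hv := val_le_of_mem A.K hx1
      by_cases hlt : x.val + A.K.index + 1 ≤ n
      · left
        exact (Rem.of_pth h1 (card_sh _ _) (Rem.exit A hx2 0 hx3)).mono (by omega)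
      · right
        have hx4 : x = -(A.K.index : ZMod n) := by
          have e : x = ((n - A.K.index : ℕ) : ZMod n) := by
            rw [← ZMod.natCast_zmod_val x]
            congr 1
            omega
          rw [e, Nat.cast_sub hDn, ZMod.natCast_self]
          ring
        have h0 : (0 : ZMod n) ∈ sh (-1) W := by
          rw [mem_sh, hx4, Nat.cast_sub (by omega), Nat.cast_one] at hx2
          rw [mem_sh]
          convert hx2 using 1
          ring
        have hu : A.u 0 ∉ sh (-1) W := by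
          rw [mem_sh, hx4, Nat.cast_sub (by omega), Nat.cast_one] at hx3
          rw [mem_sh]
          convert hx3 using 2
          ring
        have hnz : ∃ t ∈ sh (-1) W, t ∈ A.K ∧ t ≠ 0 := by
          rw [mem_inK, mem_sh] at ht'
          by_cases h2 : t = 0
          · refine ⟨t', ?_, ht'.2, ?_⟩
            · rw [mem_sh]
              exact ht'.1
            · rintro rfl
              exact htt h2
          · exact ⟨t, by rw [mem_sh]; exact ht.1, ht.2, h2⟩
        obtain ⟨r, hr1, hr2, hr3⟩ := hnz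
        have h2 := core A h0 hu hr1 hr3 (hS r hr2)
        have h3 : Pth A W (sh (-1) W) (n - 1) := by
          have := Pth.rot A W (-1)
          rwa [neg_one_val] at this
        exact (Rem.of_pth h3 (card_sh _ _) h2).mono (by omega)
    · left
      exact (Rem.of_pth h1 (card_sh _ _) (Rem.exit A hx2 l hx3)).mono (by omega)

/-! ### Climbing the chain -/

theorem Kc_zero (A : Data n) : Kc A 0 = A.K := rfl

theorem step_chain (A : Data n) (i : ℕ) (X : Finset (ZMod n)) (hne : ∃ x ∈ X, x ∈ Kc A i)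
    (hnf : ∃ x ∈ Kc A i, x ∉ X) (hK : ∀ x ∈ X, x ∈ Kc A i → ∀ k ∈ A.K, x + k ∈ X) :
    ∃ j < i, (∀ x ∈ X, x ∈ Kc A i → ∀ k ∈ Kc A j, x + k ∈ X) ∧
      ∃ y ∈ X, y.val + (Kc A i).index ≤ (Kc A j).index ∧ ∃ g ∈ Kc A j, y + A.σ g ∉ X := by
  classical
  have hex : ∃ m, ¬ (∀ x ∈ X, x ∈ Kc A i → ∀ k ∈ Kc A m, x + k ∈ X) := by
    refine ⟨i, fun h => ?_⟩
    obtain ⟨x, hx1, hx2⟩ := hne
    obtain ⟨z, hz1, hz2⟩ := hnf
    apply hz2
    have := h x hx1 hx2 (z - x) ((Kc A i).sub_mem hz1 hx2)
    rwa [add_sub_cancel] at this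
  obtain ⟨m, hm1, hm2⟩ : ∃ m, ¬ (∀ x ∈ X, x ∈ Kc A i → ∀ k ∈ Kc A m, x + k ∈ X) ∧
      ∀ m' < m, (∀ x ∈ X, x ∈ Kc A i → ∀ k ∈ Kc A m', x + k ∈ X) :=
    ⟨Nat.find hex, Nat.find_spec hex, fun m' hm' => by
      have := Nat.find_min hex hm'
      rwa [not_not] at this⟩
  have hm0 : m ≠ 0 := by
    rintro rfl
    exact hm1 hK
  obtain ⟨j, rfl⟩ : ∃ j, m = j + 1 := ⟨m - 1, by omega⟩
  have hji : j < i := by
    by_contra hcon
    apply hm1
    intro x hx1 hx2 k hk
    exfalso
    have h1 := hm2 i (by omega)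
    obtain ⟨z, hz1, hz2⟩ := hnf
    apply hz2
    have := h1 x hx1 hx2 (z - x) ((Kc A i).sub_mem hz1 hx2)
    rwa [add_sub_cancel] at this
  have hj := hm2 j (by omega)
  refine ⟨j, hji, hj, ?_⟩
  have hex2 : ∃ y ∈ X, y ∈ Kc A i ∧ ∃ g ∈ Kc A j, y + A.σ g ∉ X := by
    by_contra hcon
    push Not at hcon
    apply hm1
    set X' : Finset (ZMod n) := X.filter (fun y => y ∈ Kc A i) with hX'
    have hle : Kc A (j + 1) ≤ Stab X' := by
      have h1 : Kc A j ≤ Stab X' := by
        intro k hk
        apply mem_Stab_of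
        intro x hx
        rw [hX', Finset.mem_filter] at hx ⊢
        exact ⟨hj x hx.1 hx.2 k hk, (Kc A i).add_mem hx.2 (Kc_mono A hji.le hk)⟩
      have h2 : AddSubgroup.closure (A.σ '' (Kc A j : Set (ZMod n))) ≤ Stab X' := by
        rw [AddSubgroup.closure_le]
        rintro _ ⟨g, hg, rfl⟩
        apply mem_Stab_of
        intro x hx
        rw [hX', Finset.mem_filter] at hx ⊢
        exact ⟨hcon x hx.1 hx.2 g hg, (Kc A i).add_mem hx.2
          (Kc_mono A (Nat.succ_le_of_lt hji) (σ_mem_Kc_succ A hg))⟩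
      exact sup_le h1 h2
    intro x hx1 hx2 k hk
    have h3 := (mem_Stab _ _).1 (hle hk) x
    have h4 := h3.2 (by rw [hX', Finset.mem_filter]; exact ⟨hx1, hx2⟩)
    rw [hX', Finset.mem_filter] at h4
    exact h4.1
  obtain ⟨y, hy1, hy2, g, hg, hyg⟩ := hex2
  obtain ⟨z, hz1, hz2, hz3⟩ := exists_small_rep' (Kc_mono A hji.le) hy2
  refine ⟨z, ?_, hz3, g, hg, ?_⟩
  · have := hj y hy1 hy2 _ ((Kc A j).neg_mem hz1)
    rwa [show y + -(y - z) = z by ring] at this
  · intro h1
    apply hyg
    have h2 : z + A.σ g ∈ Kc A i := (Kc A i).add_mem hz2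
      (Kc_mono A (Nat.succ_le_of_lt hji) (σ_mem_Kc_succ A hg))
    have := hj _ h1 h2 _ hz1
    rwa [show z + A.σ g + (y - z) = y + A.σ g by ring] at this

theorem side_facts (A : Data n) {X : Finset (ZMod n)} {y g : ZMod n} (hy : y ∈ X)
    (hg : y + A.σ g ∉ X) : (0 : ZMod n) ∈ pull (A.σ ^ 1) (sh y X) ∧
      g ∉ pull (A.σ ^ 1) (sh y X) := by
  constructor
  · rw [mem_pull, A.pow_zero', mem_sh, zero_add]
    exact hy
  · rw [mem_pull, pow_one, mem_sh, add_comm]
    exact hg

theorem index_le_n (H : AddSubgroup (ZMod n)) : H.index ≤ n :=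
  Nat.le_of_dvd (NeZero.pos n) (index_dvd' H)

theorem Kc_index_le (A : Data n) {i j : ℕ} (h : i ≤ j) : (Kc A j).index ≤ (Kc A i).index :=
  Nat.le_of_dvd (index_pos' _) ((le_iff_index_dvd _ _).1 (Kc_mono A h))

/-- (TELE) -/
theorem tele (A : Data n) (i : ℕ) : ∀ W : Finset (ZMod n), (0 : ZMod n) ∈ W →
    (∃ g ∈ Kc A i, g ∉ W) → Rem A W 1 (n + 1 + i - (Kc A i).index) := by
  induction i using Nat.strong_induction_on with
  | _ i ih =>
    intro W h0 hW
    have hn := index_le_n (Kc A i)
    by_cases hK : ∀ x ∈ W, x ∈ Kc A i → ∀ k ∈ A.K, x + k ∈ W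
    · obtain ⟨j, hji, -, y, hy1, hy2, g, hg, hyg⟩ := step_chain A i W
        ⟨0, h0, (Kc A i).zero_mem⟩ hW hK
      obtain ⟨h1, h2⟩ := side_facts A hy1 hyg
      have h3 := ih j hji _ h1 ⟨g, hg, h2⟩
      have hn' := index_le_n (Kc A j)
      exact (Rem.of_pth (Pth.side A hy1 1) (Pool.Agent.Helper57.Don.card_side A W y 1) h3).mono
        (by omega)
    · push Not at hK
      obtain ⟨x, hx1, hx2, k, hk, hxk⟩ := hK
      obtain ⟨z, hz1, -, l, hl, hc⟩ := exists_exit_in A W (Kc A i) (K_le_Kc A i)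
        ⟨x, hx1, hx2, k, hk, hxk⟩
      exact (Rem.exit A hz1 l hl).mono (by omega)

/-- (T3) -/
theorem tele3 (A : Data n)
    (hbase : ∀ W : Finset (ZMod n), 3 ∣ W.card → (0 : ZMod n) ∈ W → (∃ g ∈ A.K, g ∉ W) →
      Rem A W 2 (2 * n - 1 - A.K.index)) (i : ℕ) :
    ∀ W : Finset (ZMod n), 3 ∣ W.card → (0 : ZMod n) ∈ W → (∃ g ∈ Kc A i, g ∉ W) →
      (1 ≤ i ∧ Rem A W 1 (n + i - (Kc A i).index)) ∨
        Rem A W 2 (2 * n + i - 1 - (Kc A i).index) := by
  induction i using Nat.strong_induction_on with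
  | _ i ih =>
    intro W h3 h0 hW
    have hn := index_le_n (Kc A i)
    have hn0 := NeZero.pos n
    rcases Nat.eq_zero_or_pos i with rfl | hi
    · right
      exact (hbase W h3 h0 hW).mono (by
        rw [Kc_zero]
        omega)
    by_cases hK : ∀ x ∈ W, x ∈ Kc A i → ∀ k ∈ A.K, x + k ∈ W
    · obtain ⟨j, hji, -, y, hy1, hy2, g, hg, hyg⟩ := step_chain A i W
        ⟨0, h0, (Kc A i).zero_mem⟩ hW hK
      obtain ⟨h1, h2⟩ := side_facts A hy1 hyg
      have hcs := Pool.Agent.Helper57.Don.card_side A W y 1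
      have hn' := index_le_n (Kc A j)
      rcases ih j hji _ (by rw [hcs]; exact h3) h1 ⟨g, hg, h2⟩ with ⟨h4, h5⟩ | h5
      · left
        exact ⟨hi, (Rem.of_pth (Pth.side A hy1 1) hcs h5).mono (by omega)⟩
      · right
        exact (Rem.of_pth (Pth.side A hy1 1) hcs h5).mono (by omega)
    · left
      push Not at hK
      obtain ⟨x, hx1, hx2, k, hk, hxk⟩ := hK
      obtain ⟨z, hz1, -, l, hl, hc⟩ := exists_exit_in A W (Kc A i) (K_le_Kc A i)
        ⟨x, hx1, hx2, k, hk, hxk⟩
      exact ⟨hi, (Rem.exit A hz1 l hl).mono (by omega)⟩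

/-- the chain reaches the top, and doubles before -/
theorem two_pow_mul_le (A : Data n) (i : ℕ) (h : Kc A i ≠ ⊤) :
    2 ^ i * (Kc A i).index ≤ A.K.index := by
  induction i with
  | zero => simp [Kc_zero]
  | succ i ih =>
    have h1 : Kc A i ≠ ⊤ := by
      intro h2
      apply h
      exact top_le_iff.1 (h2 ▸ Kc_mono A (Nat.le_succ i))
    have h2 := ih h1
    have h3 := Kc_lt_succ A h1
    obtain ⟨c, hc⟩ := (le_iff_index_dvd _ _).1 h3.le
    have hp := index_pos' (Kc A i)
    have hc2 : 2 ≤ c := by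
      rcases Nat.lt_or_ge c 2 with h4 | h4
      · exfalso
        have h5 : c = 0 ∨ c = 1 := by omega
        rcases h5 with rfl | rfl
        · omega
        · rw [mul_one] at hc
          exact h3.ne (eq_of_index_eq hc)
      · exact h4
    rw [pow_succ]
    calc 2 ^ i * 2 * (Kc A (i + 1)).index ≤ 2 ^ i * c * (Kc A (i + 1)).index :=
          Nat.mul_le_mul_right _ (Nat.mul_le_mul_left _ hc2)
      _ = 2 ^ i * (Kc A i).index := by rw [hc]; ring
      _ ≤ A.K.index := h2

theorem lt_n_of_ne_top (A : Data n) (i : ℕ) (h : Kc A i ≠ ⊤) : i < n := by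
  have h1 := two_pow_mul_le A i h
  have h2 := index_le_n A.K
  have h3 : i < 2 ^ i := Nat.lt_two_pow_self
  have h4 := index_pos' (Kc A i)
  have h5 : 2 ^ i ≤ 2 ^ i * (Kc A i).index := Nat.le_mul_of_pos_right _ h4
  omega

theorem Kc_n (A : Data n) : Kc A n = ⊤ := by
  by_contra h
  exact absurd (lt_n_of_ne_top A n h) (lt_irrefl _)

/-- the exit point of a union -/
theorem level_step (A : Data n) (Z : Finset (ZMod n)) (hne : Z.Nonempty)
    (hu : Z ≠ Finset.univ) (hZ : IsUnion A.K Z) :
    ∃ s : ℕ, IsUnion (Kc A s) Z ∧ ∃ y ∈ Z, y.val + 1 ≤ (Kc A s).index ∧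
      ∃ g ∈ Kc A s, y + A.σ g ∉ Z := by
  have htop := Kc_n A
  obtain ⟨x, hx⟩ := hne
  have hex : ∃ z, z ∉ Z := by
    by_contra h
    push Not at h
    exact hu (Finset.eq_univ_of_forall h)
  obtain ⟨z, hz⟩ := hex
  have hall : ∀ x, x ∈ Kc A n := fun x => by rw [htop]; exact AddSubgroup.mem_top x
  obtain ⟨j, -, h1, y, hy1, hy2, g, hg, hyg⟩ := step_chain A n Z ⟨x, hx, hall x⟩ ⟨z, hall z, hz⟩
    (fun x hx _ k hk => hZ x hx k hk)
  refine ⟨j, fun x hx k hk => h1 x hx (hall x) k hk, y, hy1, ?_, g, hg, hyg⟩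
  rw [htop, AddSubgroup.index_top] at hy2
  exact hy2

/-- (LEVEL) -/
theorem level (A : Data n) (Z : Finset (ZMod n)) (hne : Z.Nonempty) (hu : Z ≠ Finset.univ)
    (hZ : IsUnion A.K Z) :
    ∃ s : ℕ, IsUnion (Kc A s) Z ∧ Rem A Z 1 (n + s + 1) := by
  obtain ⟨s, h1, y, hy1, hy2, g, hg, hyg⟩ := level_step A Z hne hu hZ
  refine ⟨s, h1, ?_⟩
  obtain ⟨h2, h3⟩ := side_facts A hy1 hyg
  have h4 := tele A s _ h2 ⟨g, hg, h3⟩
  have hn := index_le_n (Kc A s)
  exact (Rem.of_pth (Pth.side A hy1 1) (Pool.Agent.Helper57.Don.card_side A Z y 1) h4).mono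
    (by omega)

theorem level3 (A : Data n)
    (hbase : ∀ W : Finset (ZMod n), 3 ∣ W.card → (0 : ZMod n) ∈ W → (∃ g ∈ A.K, g ∉ W) →
      Rem A W 2 (2 * n - 1 - A.K.index))
    (Z : Finset (ZMod n)) (hne : Z.Nonempty) (hu : Z ≠ Finset.univ)
    (hZ : IsUnion A.K Z) (h3 : 3 ∣ Z.card) :
    ∃ s : ℕ, IsUnion (Kc A s) Z ∧
      (Rem A Z 1 (n + s) ∨ Rem A Z 2 (2 * n + s - 1)) := by
  obtain ⟨s, h1, y, hy1, hy2, g, hg, hyg⟩ := level_step A Z hne hu hZ
  refine ⟨s, h1, ?_⟩
  obtain ⟨h2, h4⟩ := side_facts A hy1 hyg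
  have hcs := Pool.Agent.Helper57.Don.card_side A Z y 1
  have hn := index_le_n (Kc A s)
  have hn0 := NeZero.pos n
  rcases tele3 A hbase s _ (by rw [hcs]; exact h3) h2 ⟨g, hg, h4⟩ with ⟨-, h5⟩ | h5
  · left
    exact (Rem.of_pth (Pth.side A hy1 1) hcs h5).mono (by omega)
  · right
    exact (Rem.of_pth (Pth.side A hy1 1) hcs h5).mono (by omega)

/-! ### The arithmetic of the chain -/

/-- `M_i = |K_i| / |K|` -/
noncomputable def M (A : Data n) (i : ℕ) : ℕ := A.K.index / (Kc A i).index

theorem M_mul (A : Data n) (i : ℕ) : M A i * (Kc A i).index = A.K.index := by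
  unfold M
  exact Nat.div_mul_cancel ((le_iff_index_dvd _ _).1 (K_le_Kc A i))

theorem card_Kc (A : Data n) (i : ℕ) : Nat.card (Kc A i) = M A i * Nat.card A.K := by
  have h1 := card_mul_index' (Kc A i)
  have h2 := card_mul_index' A.K
  have h3 := M_mul A i
  have h4 := index_pos' (Kc A i)
  have h5 : Nat.card (Kc A i) * (Kc A i).index = M A i * Nat.card A.K * (Kc A i).index := by
    calc Nat.card (Kc A i) * (Kc A i).index = n := h1
      _ = Nat.card A.K * A.K.index := h2.symm
      _ = Nat.card A.K * (M A i * (Kc A i).index) := by rw [h3]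
      _ = M A i * Nat.card A.K * (Kc A i).index := by ring
  exact Nat.eq_of_mul_eq_mul_right h4 h5

/-- `SL b = Σ_{i ≥ 1} ⌊b / M_i⌋` -/
noncomputable def SL (A : Data n) (b : ℕ) : ℕ := ∑ i ∈ Finset.Icc 1 n, b / M A i

theorem SL_mono (A : Data n) (b : ℕ) : SL A b ≤ SL A (b + 1) := by
  unfold SL
  exact Finset.sum_le_sum (fun i _ => Nat.div_le_div_right (Nat.le_succ b))

theorem sum_two_pow (b m : ℕ) (hb : 1 ≤ b) : ∑ i ∈ Finset.Icc 1 m, b / 2 ^ i < b := by
  have key : ∀ m : ℕ, (∑ i ∈ Finset.Icc 1 m, b / 2 ^ i) + b / 2 ^ m ≤ b := by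
    intro m
    induction m with
    | zero => simp
    | succ m ih =>
      rw [Finset.sum_Icc_succ_top (by omega)]
      have h1 : b / 2 ^ (m + 1) + b / 2 ^ (m + 1) ≤ b / 2 ^ m := by
        rw [pow_succ, ← Nat.div_div_eq_div_mul]
        omega
      omega
  -- go far enough
  have h1 : ∑ i ∈ Finset.Icc 1 m, b / 2 ^ i ≤ ∑ i ∈ Finset.Icc 1 (m + b), b / 2 ^ i :=
    Finset.sum_le_sum_of_subset (Finset.Icc_subset_Icc_right (by omega))
  -- the sum is ≤ b - 1 : stop at the last nonzero term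
  obtain ⟨t, ht1, ht2⟩ : ∃ t, 2 ^ t ≤ b ∧ b < 2 ^ (t + 1) := by
    refine ⟨Nat.log 2 b, Nat.pow_log_le_self 2 (by omega), Nat.lt_pow_succ_log_self (by omega) b⟩
  have h2 : ∑ i ∈ Finset.Icc 1 m, b / 2 ^ i ≤ ∑ i ∈ Finset.Icc 1 t, b / 2 ^ i := by
    rcases Nat.le_total m t with h | h
    · exact Finset.sum_le_sum_of_subset (Finset.Icc_subset_Icc_right h)
    · have h3 : ∑ i ∈ Finset.Icc 1 m, b / 2 ^ i = ∑ i ∈ Finset.Icc 1 t, b / 2 ^ i := by
        symm
        apply Finset.sum_subset (Finset.Icc_subset_Icc_right h)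
        intro i hi1 hi2
        rw [Finset.mem_Icc] at hi1 hi2
        apply Nat.div_eq_of_lt
        calc b < 2 ^ (t + 1) := ht2
          _ ≤ 2 ^ i := Nat.pow_le_pow_right (by omega) (by omega)
      rw [h3]
  have h3 := key t
  have h4 : 1 ≤ b / 2 ^ t := (Nat.one_le_div_iff (by positivity)).2 ht1
  omega

theorem SL_lt (A : Data n) (b : ℕ) (hb : 1 ≤ b) (hbq : b < A.K.index) : SL A b < b := by
  refine lt_of_le_of_lt ?_ (sum_two_pow b n hb)
  unfold SL
  apply Finset.sum_le_sum
  intro i _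
  by_cases h : Kc A i = ⊤
  · have h1 := M_mul A i
    rw [h, AddSubgroup.index_top, mul_one] at h1
    rw [h1, Nat.div_eq_of_lt hbq]
    exact Nat.zero_le _
  · apply Nat.div_le_div_left
    · have h1 := two_pow_mul_le A i h
      rw [← M_mul A i] at h1
      exact Nat.le_of_mul_le_mul_right h1 (index_pos' _)
    · positivity

/-- level `s` union of `b+1` cosets -/
theorem SL_succ (A : Data n) (b s : ℕ) (hb : b + 1 < A.K.index) (Z : Finset (ZMod n))
    (hc : Z.card = Nat.card A.K * (b + 1)) (hZ : IsUnion (Kc A s) Z) :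
    SL A b + s ≤ SL A (b + 1) := by
  have hκ := card_pos' A.K
  have hdvd : ∀ i ≤ s, M A i ∣ b + 1 := by
    intro i hi
    have h1 : IsUnion (Kc A i) Z := fun x hx k hk => hZ x hx k (Kc_mono A hi hk)
    have h2 := card_dvd_of_isUnion _ _ h1
    rw [card_Kc, hc, mul_comm (Nat.card A.K)] at h2
    exact Nat.dvd_of_mul_dvd_mul_right hκ h2
  have hsn : s < n := by
    apply lt_n_of_ne_top A
    intro h
    have h1 := M_mul A s
    rw [h, AddSubgroup.index_top, mul_one] at h1
    have h2 := Nat.le_of_dvd (by omega) (hdvd s le_rfl)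
    omega
  unfold SL
  have h1 : ∑ i ∈ Finset.Icc 1 n, (b / M A i + if i ≤ s then 1 else 0) ≤
      ∑ i ∈ Finset.Icc 1 n, (b + 1) / M A i := by
    apply Finset.sum_le_sum
    intro i _
    split_ifs with h2
    · obtain ⟨c, hc'⟩ := hdvd i h2
      have hMpos : 0 < M A i := by
        rcases Nat.eq_zero_or_pos (M A i) with h3 | h3
        · rw [h3, zero_mul] at hc'
          omega
        · exact h3
      have h3 : b / M A i < c := by
        rw [Nat.div_lt_iff_lt_mul hMpos]
        rw [mul_comm] at hc'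
        omega
      rw [hc', Nat.mul_div_cancel_left _ hMpos]
      omega
    · rw [add_zero]
      exact Nat.div_le_div_right (Nat.le_succ b)
  have h2 : ∑ i ∈ Finset.Icc 1 n, (if i ≤ s then 1 else 0) = s := by
    rw [← Finset.sum_filter, Finset.sum_const, smul_eq_mul, mul_one]
    have : (Finset.Icc 1 n).filter (fun i => i ≤ s) = Finset.Icc 1 s := by
      ext i
      rw [Finset.mem_filter, Finset.mem_Icc, Finset.mem_Icc]
      omega
    rw [this, Nat.card_Icc]
    omega
  rw [Finset.sum_add_distrib, h2] at h1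
  exact h1

/-! ### The base of (T3) -/

theorem base3 (A : Data n) (hS : ∀ k ∈ A.K, ¬ Away A (A.K.index - 2) k) (hD : 2 ≤ A.K.index)
    (hκ : Nat.card A.K = 3) (W : Finset (ZMod n)) (h3 : 3 ∣ W.card) (h0 : (0 : ZMod n) ∈ W)
    (hg : ∃ g ∈ A.K, g ∉ W) : Rem A W 2 (2 * n - 1 - A.K.index) := by
  have hn := card_mul_index' A.K
  rw [hκ] at hn
  have hpos : 0 < W.card := Finset.card_pos.2 ⟨0, h0⟩
  have hlast : ∀ c, Rem A W 1 c → c + n ≤ 2 * n - 1 - A.K.index →
      Rem A W 2 (2 * n - 1 - A.K.index) := by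
    intro c hc hle
    refine (Rem.trans hc (r' := 1) (c' := n) ?_).mono hle
    intro V hV
    apply rem_of_not_union
    intro hu
    have := card_dvd_of_isUnion _ _ hu
    rw [hκ] at this
    omega
  rcases brk_exit A W ⟨⟨0, A.K.zero_mem, h0⟩, hg⟩ with ⟨x, hx1, hx2, hx3⟩ | ⟨i, x, hx1, hx2, hx3, hx4⟩
  · have hv := val_le_of_mem A.K hx1
    by_cases hlt : x.val + 2 * A.K.index ≤ n
    · exact hlast _ (Rem.exit A hx2 0 hx3) (by omega)
    · have hxv : x.val + A.K.index = n := by
        have h4 := hx1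
        rw [Pool.Agent.Helper4.Don.mem_iff_dvd] at h4
        obtain ⟨c, hc⟩ := h4
        have hc3 : c < 3 := by
          by_contra h5
          push Not at h5
          have := Nat.mul_le_mul_left A.K.index h5
          have := x.val_lt
          omega
        have hc2 : 2 ≤ c := by
          by_contra h5
          have h6 : c ≤ 1 := by omega
          have := Nat.mul_le_mul_left A.K.index h6
          omega
        have h7 : c = 2 := by omega
        rw [h7] at hc
        omega
      have hx4 : -x = (A.K.index : ZMod n) := by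
        have e : x = ((n - A.K.index : ℕ) : ZMod n) := by
          rw [← ZMod.natCast_zmod_val x]
          congr 1
          omega
        rw [e, Nat.cast_sub (by omega), ZMod.natCast_self]
        ring
      have hU0 : (0 : ZMod n) ∈ sh x W := by
        rw [mem_sh, zero_add]
        exact hx2
      have hUu : A.u 0 ∉ sh x W := by
        rw [mem_sh, add_comm]
        exact hx3
      have hUt : -x ∈ sh x W := by
        rw [mem_sh, neg_add_cancel]
        exact h0
      have hne : -x ≠ 0 := by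
        intro h
        have h5 : x = 0 := by rwa [neg_eq_zero] at h
        rw [h5, ZMod.val_zero] at hxv
        omega
      have h5 := core A hU0 hUu hUt hne (hS _ (A.K.neg_mem hx1))
      exact (Rem.of_pth (Pth.rot A W x) (card_sh _ _) h5).mono (by omega)
  · exact hlast _ (Rem.exit A hx2 i hx3) (by omega)

/-! ### The main induction -/

/-- the saving -/
noncomputable def F (A : Data n) (m : ℕ) : ℕ :=
  (m / Nat.card A.K - SL A (m / Nat.card A.K)) + (m % Nat.card A.K - 1)

theorem F_eq (A : Data n) (b i : ℕ) (hi : i < Nat.card A.K) :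
    F A (Nat.card A.K * b + i) = (b - SL A b) + (i - 1) := by
  have hκ := card_pos' A.K
  unfold F
  rw [Nat.mul_add_div hκ, Nat.div_eq_of_lt hi, add_zero, Nat.mul_add_mod, Nat.mod_eq_of_lt hi]

theorem SL_le (A : Data n) (b : ℕ) (hbq : b < A.K.index) : SL A b ≤ b := by
  rcases Nat.eq_zero_or_pos b with rfl | hb
  · unfold SL
    simp
  · exact (SL_lt A b hb hbq).le

theorem main (A : Data n) (hK : A.K ≠ ⊤) (hS : ∀ k ∈ A.K, ¬ Away A (A.K.index - 2) k) (m : ℕ) :
    ∀ X : Finset (ZMod n), X.card = m → X ≠ Finset.univ → C A X (F A m) := by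
  have hD : 2 ≤ A.K.index := by
    have h1 := index_pos' A.K
    have h2 : A.K.index ≠ 1 := fun h => hK (AddSubgroup.index_eq_one.1 h)
    omega
  have hκ := three_le_card A hK
  have hn := card_mul_index' A.K
  have hn0 := NeZero.pos n
  induction m using Nat.strong_induction_on with
  | _ m ih =>
    intro X hX hXu
    have hlt : m < n := by
      rw [← hX]
      obtain ⟨z, hz⟩ : ∃ z, z ∉ X := by
        by_contra h
        push Not at h
        exact hXu (Finset.eq_univ_of_forall h)
      have h1 := Finset.card_lt_univ_of_notMem hz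
      rwa [ZMod.card] at h1
    have hIH : ∀ m' < m, ∀ V : Finset (ZMod n), V.card = m' → C A V (F A m') := by
      intro m' hm' V hV
      apply ih m' hm' V hV
      rintro rfl
      rw [Finset.card_univ, ZMod.card] at hV
      omega
    obtain ⟨b, i, hbi, hi⟩ : ∃ b i, m = Nat.card A.K * b + i ∧ i < Nat.card A.K :=
      ⟨m / Nat.card A.K, m % Nat.card A.K, (Nat.div_add_mod _ _).symm,
        Nat.mod_lt _ (card_pos' _)⟩
    have hbq : b < A.K.index := by
      by_contra h
      push Not at h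
      have := Nat.mul_le_mul_left (Nat.card A.K) h
      omega
    rw [hbi, F_eq A b i hi]
    have hSb := SL_le A b hbq
    rcases Nat.lt_or_ge i 2 with hi2 | hi2
    · rcases Nat.eq_zero_or_pos i with rfl | hi1
      · -- `i = 0`
        rcases Nat.eq_zero_or_pos b with rfl | hb
        · have hX0 : X = ∅ := by
            rw [← Finset.card_eq_zero, hX, hbi]
            simp
          rw [hX0]
          exact ⟨0, by simp, Cst.empty A.f⟩
        obtain ⟨c, rfl⟩ : ∃ c, b = c + 1 := ⟨b - 1, by omega⟩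
        have hSc := SL_le A c (by omega)
        have hSm := SL_mono A c
        have hSl := SL_lt A (c + 1) (by omega) hbq
        have e1 : Nat.card A.K * (c + 1) + 0 =
            Nat.card A.K * c + (Nat.card A.K - 1) + 1 := by
          rw [Nat.mul_succ]
          omega
        have hFV := F_eq A c (Nat.card A.K - 1) (by omega)
        by_cases hun : IsUnion A.K X
        · have hne : X.Nonempty := by
            rw [← Finset.card_pos, hX, hbi, e1]
            omega
          rcases Nat.lt_or_ge (Nat.card A.K) 4 with h4 | h4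
          · have hκ3 : Nat.card A.K = 3 := by omega
            obtain ⟨s, hs1, hs2⟩ := level3 A (base3 A hS hD hκ3) X hne hXu hun (by
              have := card_dvd_of_isUnion _ _ hun
              rwa [hκ3] at this)
            have hSs := SL_succ A c s hbq X (by rw [hX, hbi]; omega) hs1
            rcases hs2 with hs2 | hs2
            · refine C.of_rem (m' := F A (Nat.card A.K * c + (Nat.card A.K - 1))) hs2 ?_ ?_
              · intro V hV
                exact hIH _ (by omega) V (by omega)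
              · rw [hFV, hκ3]
                omega
            · have e2 : Nat.card A.K * (c + 1) + 0 = Nat.card A.K * c + 1 + 2 := by
                rw [hκ3]
                omega
              have hFV2 := F_eq A c 1 (by omega)
              refine C.of_rem (m' := F A (Nat.card A.K * c + 1)) hs2 ?_ ?_
              · intro V hV
                exact hIH _ (by omega) V (by omega)
              · rw [hFV2]
                omega
          · obtain ⟨s, hs1, hs2⟩ := level A X hne hXu hun
            have hSs := SL_succ A c s hbq X (by rw [hX, hbi]; omega) hs1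
            refine C.of_rem (m' := F A (Nat.card A.K * c + (Nat.card A.K - 1))) hs2 ?_ ?_
            · intro V hV
              exact hIH _ (by omega) V (by omega)
            · rw [hFV]
              omega
        · refine C.of_rem (m' := F A (Nat.card A.K * c + (Nat.card A.K - 1)))
            (rem_of_not_union A X hun) ?_ ?_
          · intro V hV
            exact hIH _ (by omega) V (by omega)
          · rw [hFV]
            omega
      · -- `i = 1`
        have hi1' : i = 1 := by omega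
        subst hi1'
        have hun : ¬ IsUnion A.K X := by
          intro h
          have h1 := card_dvd_of_isUnion _ _ h
          rw [hX, hbi] at h1
          have h2 := (Nat.dvd_add_right (Dvd.intro b rfl)).1 h1
          have := Nat.le_of_dvd one_pos h2
          omega
        have hFV := F_eq A b 0 (by omega)
        refine C.of_rem (m' := F A (Nat.card A.K * b + 0)) (rem_of_not_union A X hun) ?_ ?_
        · intro V hV
          exact hIH _ (by omega) V (by omega)
        · rw [hFV]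
          omega
    · rcases high A hS hD (W := X) (b := b) (i := i) (by omega) hi2 hi with h1 | h1
      · have hFV := F_eq A b (i - 1) (by omega)
        refine C.of_rem (m' := F A (Nat.card A.K * b + (i - 1))) h1 ?_ ?_
        · intro V hV
          exact hIH _ (by omega) V (by omega)
        · rw [hFV]
          omega
      · have hFV := F_eq A b (i - 2) (by omega)
        refine C.of_rem (m' := F A (Nat.card A.K * b + (i - 2))) h1 ?_ ?_
        · intro V hV
          exact hIH _ (by omega) V (by omega)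
        · rw [hFV]
          omega

/-- case S -/
theorem caseS (A : Data n) (hK : A.K ≠ ⊤) (hS : ∀ k ∈ A.K, ¬ Away A (A.K.index - 2) k) :
    ∀ U : Finset (ZMod n), U ≠ Finset.univ → Cst A.f U (n * U.card) := fun U hU =>
  (main A hK hS U.card U rfl hU).cst

end Pool.Agent.Helper57.CaseS
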