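import Pool.Agent.Helper42.Jef.LL2
import Pool.Agent.Helper42.Jef.Vel2
import Pool.Agent.Helper42.Jef.Defs3

/-! # Transport form of the stress equation (module P1) -/

open MeasureTheory Set Filter Topology
open scoped ENNReal NNReal ContDiff

namespace Pool.Agent.Helper42.Jef

variable {n : ℕ}

namespace TeIff

theorem smul_int {α : Type*} [MeasurableSpace α] {μ : Measure α} {E : Type*}
    [NormedAddCommGroup E] [NormedSpace ℝ E] {f : α → ℝ} {u : α → E} (hf : MemLp f 2 μ)
    (hu : MemLp u 2 μ) : Integrable (fun x => f x • u x) μ := by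
  have h1 : Integrable (fun x => ‖f x‖ * ‖u x‖) μ := hf.norm.integrable_mul hu.norm
  exact h1.mono' (hf.1.smul hu.1) (Eventually.of_forall fun x => by rw [norm_smul])

/-- integral of the derivative of a time test function over `(-1,0)` -/
theorem int_deriv {T : ℝ} {η : ℝ → ℝ} (hη : IsTime (-1) T η) :
    ∫ t in Ioo (-1 : ℝ) 0, deriv η t = η 0 := by
  rw [← integral_Ioc_eq_integral_Ioo, ← intervalIntegral.integral_of_le (by norm_num)]
  rw [intervalIntegral.integral_deriv_eq_sub (fun x _ => hη.diff x)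
    (hη.dcont.intervalIntegrable _ _)]
  have h1 : η (-1) = 0 := by
    refine image_eq_zero_of_notMem_tsupport fun hc => ?_
    exact lt_irrefl _ (hη.supp hc).1
  rw [h1, sub_zero]

end TeIff

/-- the transport equation for `ext0 τ0 τ` is the weak form with initial value -/
theorem te_iff {E : Type*} [NormedAddCommGroup E] [InnerProductSpace ℝ E] [FiniteDimensional ℝ E]
    [MeasurableSpace E] [BorelSpace E]
    {Ω : Set (Eu n)} (hΩ : IsOpen Ω) {T : ℝ} (hT : 0 < T) {v : ST n → Eu n} {G : ST n → Mt n}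
    (hv : IsVel Ω T v G) {u : ST n → E} (hu : MemLp u 2 volume)
    (hsup : ∀ z : ST n, z.1 ∉ Ioo 0 T → u z = 0) {u0 : Eu n → E} (hu0 : MemLp u0 2 volume)
    {F : ST n → E} (hF : ∀ (η : ℝ → ℝ) (ψ : Eu n → ℝ), IsTime (-1) T η → IsTest ψ →
      Integrable (fun z : ST n => (η z.1 * ψ z.2) • F z)) :
    TE T v (ext0 u0 u) F ↔ ∀ (η : ℝ → ℝ) (ψ : Eu n → ℝ), IsTime (-1) T η → IsTest ψ →
      (∫ z : ST n, ((deriv η z.1 * ψ z.2 + η z.1 * fderiv ℝ ψ z.2 (v z)) • u z +
        (η z.1 * ψ z.2) • F z)) + η 0 • ∫ x, ψ x • u0 x = 0 := by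
  have key : ∀ (η : ℝ → ℝ) (ψ : Eu n → ℝ), IsTime (-1) T η → IsTest ψ →
      ∫ z : ST n, ((deriv η z.1 * ψ z.2 + η z.1 * fderiv ℝ ψ z.2 (v z)) • ext0 u0 u z +
        (η z.1 * ψ z.2) • F z) =
      (∫ z : ST n, ((deriv η z.1 * ψ z.2 + η z.1 * fderiv ℝ ψ z.2 (v z)) • u z +
        (η z.1 * ψ z.2) • F z)) + η 0 • ∫ x, ψ x • u0 x := by
    intro η ψ hη hψ
    have m1 : MemLp (fun z : ST n => deriv η z.1 * ψ z.2) 2 volume :=
      memLp_test (E := ℝ) hη.dcont hη.cpt.deriv hψ.smooth.continuous hψ.cpt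
    have m2 : MemLp (fun z : ST n => η z.1 * fderiv ℝ ψ z.2 (v z)) 2 volume :=
      (strong_D (vs := fun _ => v) (fun _ => hv.memv) hv.memv (by simp) hη.cont hη.cpt hψ.smooth
        hψ.cpt).2.1
    have i1 : Integrable (fun z : ST n =>
        (deriv η z.1 * ψ z.2 + η z.1 * fderiv ℝ ψ z.2 (v z)) • u z) :=
      TeIff.smul_int (m1.add m2) hu
    have i2 := hF η ψ hη hψ
    -- the initial part
    set w : ST n → E := fun z => (Ioo (-1 : ℝ) 0).indicator (fun _ => (1 : ℝ)) z.1 • u0 z.2 with hw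
    have mind : MemLp ((Ioo (-1 : ℝ) 0).indicator (fun _ => (1 : ℝ))) 2 volume :=
      memLp_indicator_const 2 measurableSet_Ioo 1 (Or.inr (by simp))
    have mw : MemLp w 2 volume := memLp_prod_smul mind hu0
    have i3 : Integrable (fun z : ST n =>
        (deriv η z.1 * ψ z.2 + η z.1 * fderiv ℝ ψ z.2 (v z)) • w z) :=
      TeIff.smul_int (m1.add m2) mw
    have hext : ∀ z, ext0 u0 u z = u z + w z := by
      intro z
      by_cases hz : z.1 ∈ Ioo (-1 : ℝ) 0
      · have h1 : ext0 u0 u z = u0 z.2 := by simp only [ext0, if_pos hz]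
        have h2 : u z = 0 := hsup z fun hc => lt_asymm hc.1 hz.2
        rw [h1, h2, zero_add, hw]
        simp only [indicator_of_mem hz, one_smul]
      · have h1 : ext0 u0 u z = u z := by simp only [ext0, if_neg hz]
        rw [h1, hw]
        simp only [indicator_of_notMem hz, zero_smul, add_zero]
    have e1 : ∫ z : ST n, ((deriv η z.1 * ψ z.2 + η z.1 * fderiv ℝ ψ z.2 (v z)) • ext0 u0 u z +
        (η z.1 * ψ z.2) • F z) =
        (∫ z : ST n, ((deriv η z.1 * ψ z.2 + η z.1 * fderiv ℝ ψ z.2 (v z)) • u z +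
        (η z.1 * ψ z.2) • F z)) +
        ∫ z : ST n, (deriv η z.1 * ψ z.2 + η z.1 * fderiv ℝ ψ z.2 (v z)) • w z := by
      have i12 : Integrable (fun z : ST n =>
        (deriv η z.1 * ψ z.2 + η z.1 * fderiv ℝ ψ z.2 (v z)) • u z +
        (η z.1 * ψ z.2) • F z) := i1.add i2
      rw [← integral_add i12 i3]
      refine integral_congr_ae (Eventually.of_forall fun z => ?_)
      simp only [hext, smul_add]
      abel
    rw [e1]
    congr 1
    -- `v = 0` for `t ∉ (0,T)`
    have hv0 := (hv.zero_out hΩ.measurableSet).1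
    have e2 : ∫ z : ST n, (deriv η z.1 * ψ z.2 + η z.1 * fderiv ℝ ψ z.2 (v z)) • w z =
        ∫ z : ST n, ((Ioo (-1 : ℝ) 0).indicator (deriv η) z.1) • (ψ z.2 • u0 z.2) := by
      refine integral_congr_ae ?_
      filter_upwards [hv0] with z hz
      by_cases hz1 : z.1 ∈ Ioo (-1 : ℝ) 0
      · have h2 : v z = 0 := hz (Or.inl fun hc => lt_asymm hc.1 hz1.2)
        simp only [hw, h2, map_zero, mul_zero, add_zero, indicator_of_mem hz1, one_smul,
          smul_smul]
      · simp only [hw, indicator_of_notMem hz1, zero_smul, smul_zero]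
    rw [e2]
    have e3 : ∫ z : ST n, ((Ioo (-1 : ℝ) 0).indicator (deriv η) z.1) • (ψ z.2 • u0 z.2) =
        (∫ t, (Ioo (-1 : ℝ) 0).indicator (deriv η) t) • ∫ x, ψ x • u0 x := by
      exact integral_prod_smul (μ := (volume : Measure ℝ)) (ν := (volume : Measure (Eu n)))
        ((Ioo (-1 : ℝ) 0).indicator (deriv η)) (fun x => ψ x • u0 x)
    rw [e3, integral_indicator measurableSet_Ioo, TeIff.int_deriv hη]
  constructor
  · intro h η ψ hη hψ
    rw [← key η ψ hη hψ]
    exact h η ψ hη hψ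
  · intro h η ψ hη hψ
    rw [key η ψ hη hψ]
    exact h η ψ hη hψ

end Pool.Agent.Helper42.Jef
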