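import Pool.Agent.Helper57.DonCaseS
import Pool.Agent.Helper4.DonTermB

set_option autoImplicit false
set_option linter.unusedSectionVars false

/-!
MP_cc0723_lc: the chain lemma of mode H.
-/

namespace Pool.Agent.Helper57.Chn

open Pool.Agent.Helper4.Don
open Pool.Agent.Helper57.Don (Kc Kc_mono K_le_Kc σ_mem_Kc_succ)
open Pool.Agent.Helper57.CaseS (Kc_zero level_step side_facts index_le_n)

variable {n : ℕ} [NeZero n]

/-- `G` is a union of two cosets of `H` -/
theorem two_cosets {G H : AddSubgroup (ZMod n)} (h : H.index = G.index * 2) {x : ZMod n}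
    (hx : x ∈ G) (hx0 : x.val ≠ 0) (hxH : x.val < H.index) {g : ZMod n} (hg : g ∈ G) :
    g ∈ H ∨ g - x ∈ H := by
  have hG := index_pos' G
  have hHG : H ≤ G := (le_iff_index_dvd _ _).2 ⟨2, h⟩
  have h1 := val_add_index_le hHG hx hxH
  have hxv : x.val = G.index := by
    rw [mem_iff_dvd] at hx
    obtain ⟨c, hc⟩ := hx
    have hc0 : c ≠ 0 := by
      rintro rfl
      exact hx0 (by omega)
    have := Nat.mul_le_mul_left G.index (Nat.one_le_iff_ne_zero.2 hc0)
    omega
  have hgd := hg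
  rw [mem_iff_dvd] at hgd
  obtain ⟨c, hc⟩ := hgd
  rcases Nat.even_or_odd c with ⟨d, hd⟩ | ⟨d, hd⟩
  · left
    rw [mem_iff_dvd, h, hc, hd]
    exact ⟨d, by ring⟩
  · right
    have e : g - x = ((H.index * d : ℕ) : ZMod n) := by
      rw [← ZMod.natCast_zmod_val g, ← ZMod.natCast_zmod_val x, hc, hxv, hd, h]
      push_cast
      ring
    rw [e]
    exact natCast_mem_of_dvd H (Dvd.intro _ rfl)

/-- the set inside `G` is not all of `G` and its stabilizer -/
theorem stab_le {G : AddSubgroup (ZMod n)} {Z : Finset (ZMod n)} (h0 : (0 : ZMod n) ∈ Z) :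
    Stab (inG G Z) ≤ G := by
  intro h hh
  have h1 := (mem_Stab _ _).1 hh 0
  have h2 := h1.2 ((mem_inG _ _ _).2 ⟨h0, G.zero_mem⟩)
  rw [zero_add, mem_inG] at h2
  exact h2.2

theorem stab_sub {G : AddSubgroup (ZMod n)} {Z : Finset (ZMod n)} (h0 : (0 : ZMod n) ∈ Z)
    {h : ZMod n} (hh : h ∈ Stab (inG G Z)) : h ∈ Z := by
  have h1 := (mem_Stab _ _).1 hh 0
  have h2 := h1.2 ((mem_inG _ _ _).2 ⟨h0, G.zero_mem⟩)
  rw [zero_add, mem_inG] at h2
  exact h2.1

/-- `V_j` lies in the stabilizer -/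
theorem V_stab {A : Data n} {N a : ℕ} (ih : IH A N) {G : AddSubgroup (ZMod n)}
    {Z : Finset (ZMod n)} (h : Pr A N Z a) (j : ℕ) (hVG : ∀ v ∈ V A j, v ∈ G)
    (hrep : ∀ x ∈ inG G Z, x.val < (Stab (inG G Z)).index → a + x.val + j < A.K.index) :
    ∀ v ∈ V A j, v ∈ Stab (inG G Z) := by
  intro v hv
  apply mem_Stab_of
  intro y hy
  obtain ⟨x, hx1, hx2, -⟩ := exists_small_rep (Stab (inG G Z)) y
  have hx3 : x ∈ inG G Z := by
    have := (mem_Stab _ _).1 hx1 x
    rw [add_sub_cancel] at this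
    exact this.1 hy
  have hx4 := h.c1 ih (x := x.val) (j := j)
    (by rw [ZMod.natCast_zmod_val]; exact ((mem_inG _ _ _).1 hx3).1) (hrep x hx3 hx2) hv
  rw [ZMod.natCast_zmod_val] at hx4
  have hx5 : x + v ∈ inG G Z :=
    (mem_inG _ _ _).2 ⟨hx4, G.add_mem ((mem_inG _ _ _).1 hx3).2 (hVG v hv)⟩
  have := (mem_Stab _ _).1 hx1 (x + v)
  rw [show x + v + (y - x) = y + v by ring] at this
  exact this.2 hx5

theorem chain_aux {A : Data n} {N : ℕ} (ih : IH A N) {Y : Finset (ZMod n)} (m : ℕ) :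
    ∀ (G : AddSubgroup (ZMod n)) (Z : Finset (ZMod n)) (a e t : ℕ), Nat.card G = m →
      Term A N G Z a e → G ≤ Stab Y → Kc A t ≤ G → (∃ g ∈ Kc A t, g ∉ Z) →
      ∃ (G' : AddSubgroup (ZMod n)) (Z' : Finset (ZMod n)) (a' e' : ℕ), G' ≤ Stab Y ∧
        Term A N G' Z' a' e' ∧ (¬ A.K ≤ Stab (inG G' Z') ∨ Stab (inG G' Z') = A.K) := by
  classical
  induction m using Nat.strong_induction_on with
  | _ m ihm =>
    intro G Z a e t hm hT hGY hKt hg
    by_cases hB : A.K ≤ Stab (inG G Z)
    swap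
    · exact ⟨G, Z, a, e, hGY, hT, Or.inl hB⟩
    by_cases hA : Stab (inG G Z) = A.K
    · exact ⟨G, Z, a, e, hGY, hT, Or.inr hA⟩
    set H1 := Stab (inG G Z) with hH1
    have hKH : A.K < H1 := lt_of_le_of_ne hB (fun h => hA h.symm)
    have hHG : H1 ≤ G := stab_le hT.z0
    obtain ⟨g, hg1, hg2⟩ := hg
    have hgH : g ∉ H1 := fun h => hg2 (stab_sub hT.z0 h)
    have hHGlt : H1 < G := lt_of_le_of_ne hHG (fun h => hgH (h ▸ hKt hg1))
    -- the level inside `H1`
    have hex : ∃ m, ¬ Kc A m ≤ H1 := ⟨t, fun h => hgH (h hg1)⟩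
    obtain ⟨q, hq1, hq2⟩ : ∃ q, ¬ Kc A q ≤ H1 ∧ ∀ q' < q, Kc A q' ≤ H1 :=
      ⟨Nat.find hex, Nat.find_spec hex, fun q' hq' => by
        have := Nat.find_min hex hq'
        rwa [not_not] at this⟩
    have hq0 : q ≠ 0 := by
      rintro rfl
      exact hq1 hB
    obtain ⟨s, rfl⟩ : ∃ s, q = s + 1 := ⟨q - 1, by omega⟩
    have hst : s < t := by
      by_contra hcon
      have h1 := hq2 t (by omega)
      exact hgH (h1 hg1)
    have hs := hq2 s (by omega)
    have hk : ∃ k ∈ Kc A s, A.σ k ∉ H1 := by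
      by_contra hcon
      push Not at hcon
      apply hq1
      refine sup_le hs ?_
      rw [AddSubgroup.closure_le]
      rintro _ ⟨k, hk, rfl⟩
      exact hcon k hk
    obtain ⟨k, hk1, hk2⟩ := hk
    have hkG : A.σ k ∈ G := hKt (Kc_mono A (Nat.succ_le_of_lt hst) (σ_mem_Kc_succ A hk1))
    have hz : ∃ z ∈ inG G Z, z + A.σ k ∉ inG G Z := by
      by_contra hcon
      push Not at hcon
      exact hk2 (mem_Stab_of _ _ hcon)
    obtain ⟨z, hz1, hz2⟩ := hz
    obtain ⟨x, hx1, hx2, -⟩ := exists_small_rep H1 z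
    have hx3 : x ∈ inG G Z := by
      have := (mem_Stab _ _).1 hx1 x
      rw [add_sub_cancel] at this
      exact this.1 hz1
    have hx3' := (mem_inG _ _ _).1 hx3
    have hx4 : x + A.σ k ∉ Z := by
      intro h1
      apply hz2
      have h2 : x + A.σ k ∈ inG G Z := (mem_inG _ _ _).2 ⟨h1, G.add_mem hx3'.2 hkG⟩
      have := (mem_Stab _ _).1 hx1 (x + A.σ k)
      rw [show x + A.σ k + (z - x) = z + A.σ k by ring] at this
      exact this.2 h2
    have hrepG : ∀ y ∈ inG G Z, y.val < H1.index → y.val + G.index ≤ H1.index := by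
      intro y hy hy2
      exact val_add_index_le hHG ((mem_inG _ _ _).1 hy).2 hy2
    have hxv := hrepG x hx3 hx2
    set Z' := pull (A.σ ^ 1) (sh x Z) with hZ'
    obtain ⟨hf1, hf2⟩ := side_facts A hx3'.1 hx4
    have hpr : Pr A N Z' (a + x.val + 1) := by
      have h1 := (hT.pr.shift x.val).keep (by
        rw [ZMod.natCast_zmod_val, mem_sh, zero_add]
        exact hx3'.1) 1
      rwa [ZMod.natCast_zmod_val] at h1
    have hcard : Z'.card = N := by
      rw [hZ', card_pull, card_sh]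
      exact hT.card
    have hmlt : Nat.card H1 < m := by
      rw [← hm]
      have h1 := card_mul_index' H1
      have h2 := card_mul_index' G
      have h3 := index_pos' G
      obtain ⟨c, hc⟩ := (le_iff_index_dvd _ _).1 hHG
      by_contra hcon
      push Not at hcon
      apply hHGlt.ne
      apply eq_of_index_eq
      have h4 : Nat.card G * H1.index ≤ Nat.card H1 * H1.index := Nat.mul_le_mul_right _ hcon
      rw [h1] at h4
      have h5 := Nat.le_of_mul_le_mul_left (h4.trans h2.ge) (card_pos' G)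
      have h6 := Nat.le_of_dvd (index_pos' H1) ((le_iff_index_dvd _ _).1 hHG)
      omega
    obtain ⟨c, hc⟩ := (le_iff_index_dvd _ _).1 hHG
    have hGp := index_pos' G
    have hHp := index_pos' H1
    have hc2 : 2 ≤ c := by
      rcases Nat.lt_or_ge c 2 with h4 | h4
      · exfalso
        have h5 : c = 0 ∨ c = 1 := by omega
        rcases h5 with rfl | rfl
        · omega
        · rw [mul_one] at hc
          exact hHGlt.ne (eq_of_index_eq hc)
      · exact h4
    obtain ⟨ρ, hρ1, hρ2, -⟩ := dims A H1 hKH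
    have hD2 : 2 * H1.index ≤ A.K.index := by
      rw [hρ2, mul_comm]
      exact Nat.mul_le_mul_left _ hρ1
    have hTa := hT.ha
    have hTe := hT.he
    have he1 := hT.e_lt.1
    refine ihm (Nat.card H1) hmlt H1 Z' (a + x.val + 1) (if c = 2 then e else e + 1) s rfl ?_
      (hHG.trans hGY) hs ⟨k, hk1, hf2⟩
    split_ifs with hc'
    · -- index two
      subst hc'
      have hval0 : ∀ y ∈ inG G Z, y.val < H1.index → y.val = 0 := by
        intro y hy hy2
        by_contra hy0
        have hy' := (mem_inG _ _ _).1 hy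
        have h1 : G ≤ H1 := by
          intro r hr
          apply mem_Stab_of
          intro w hw
          have hwG := ((mem_inG _ _ _).1 hw).2
          have hwr : w + r ∈ G := G.add_mem hwG hr
          rcases two_cosets hc hy'.2 hy0 hy2 hwr with h2 | h2
          · have := (mem_Stab _ _).1 h2 0
            rw [zero_add] at this
            exact this.2 ((mem_inG _ _ _).2 ⟨hT.z0, G.zero_mem⟩)
          · have := (mem_Stab _ _).1 h2 y
            rw [add_sub_cancel] at this
            exact this.2 hy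
        exact hHGlt.ne (le_antisymm hHG h1)
      have hx0 := hval0 x hx3 hx2
      refine ⟨hKH, hpr, hcard, hf1, by omega, by omega, ?_⟩
      refine V_stab ih hT.pr _ (fun v hv => hT.hV v (V_mono A (by omega) hv)) ?_
      intro y hy hy2
      have hy2' : y.val < H1.index := hy2
      rw [hval0 y hy hy2']
      omega
    · have hc3 : 3 ≤ c := by omega
      have hm3 : G.index * 3 ≤ H1.index := by
        rw [hc]
        exact Nat.mul_le_mul_left _ hc3
      refine ⟨hKH, hpr, hcard, hf1, by omega, ?_, ?_⟩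
      · rw [pow_succ]
        omega
      · refine V_stab ih hT.pr _ (fun v hv => hT.hV v (V_mono A (by omega) hv)) ?_
        intro y hy hy2
        have := hrepG y hy hy2
        omega

/-- the chain lemma -/
theorem chain {A : Data n} {N : ℕ} (ih : IH A N) {Y : Finset (ZMod n)} (hY : Pr A N Y 0)
    (hc : Y.card = N) (hne : Y.Nonempty) (hu : Y ≠ Finset.univ) (hst : A.K < Stab Y) :
    ∃ (G : AddSubgroup (ZMod n)) (Z : Finset (ZMod n)) (a e : ℕ), G ≤ Stab Y ∧
      Term A N G Z a e ∧ (¬ A.K ≤ Stab (inG G Z) ∨ Stab (inG G Z) = A.K) := by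
  obtain ⟨j, hj, y, hy1, -, g, hg, hyg⟩ :=
    level_step A Y hne hu ((isUnion_iff _ _).2 hst.le)
  obtain ⟨x, hx1, hx2, -⟩ := exists_small_rep (Stab Y) y
  have hx3 : x ∈ Y := by
    have := (mem_Stab _ _).1 hx1 x
    rw [add_sub_cancel] at this
    exact this.1 hy1
  have hx4 : x + A.σ g ∉ Y := by
    intro h1
    apply hyg
    have := (mem_Stab _ _).1 hx1 (x + A.σ g)
    rw [show x + A.σ g + (y - x) = y + A.σ g by ring] at this
    exact this.2 h1
  obtain ⟨hf1, hf2⟩ := side_facts A hx3 hx4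
  have hpr : Pr A N (pull (A.σ ^ 1) (sh x Y)) (0 + x.val + 1) := by
    have h1 := (hY.shift x.val).keep (by
      rw [ZMod.natCast_zmod_val, mem_sh, zero_add]
      exact hx3) 1
    rwa [ZMod.natCast_zmod_val] at h1
  have htop : Stab Y ≠ ⊤ := by
    intro h
    apply hu
    apply Finset.eq_univ_of_forall
    intro z
    obtain ⟨w, hw⟩ := hne
    have h1 : z - w ∈ Stab Y := by rw [h]; exact AddSubgroup.mem_top _
    have := (mem_Stab _ _).1 h1 w
    rw [add_sub_cancel] at this
    exact this.2 hw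
  have hp := index_pos' (Stab Y)
  have hne1 : (Stab Y).index ≠ 1 := fun h => htop (AddSubgroup.index_eq_one.1 h)
  have hle : (Stab Y).index ≤ A.K.index :=
    Nat.le_of_dvd (index_pos' _) ((le_iff_index_dvd _ _).1 hst.le)
  refine chain_aux ih (Y := Y) (Nat.card (Stab Y)) (Stab Y) (pull (A.σ ^ 1) (sh x Y))
    (0 + x.val + 1) 0 j rfl ⟨hst, hpr, by rw [card_pull, card_sh]; exact hc, hf1, by omega,
      by omega, ?_⟩ le_rfl ((isUnion_iff _ _).1 hj) ⟨g, hg, hf2⟩
  intro v hv
  apply mem_Stab_of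
  intro z hz
  obtain ⟨w, hw1, hw2, -⟩ := exists_small_rep (Stab Y) z
  have hw3 : w ∈ Y := by
    have := (mem_Stab _ _).1 hw1 w
    rw [add_sub_cancel] at this
    exact this.1 hz
  have hw4 := hY.c1 ih (x := w.val) (j := A.K.index - (Stab Y).index - 0)
    (by rw [ZMod.natCast_zmod_val]; exact hw3) (by omega) hv
  rw [ZMod.natCast_zmod_val] at hw4
  have := (mem_Stab _ _).1 hw1 (w + v)
  rw [show w + v + (z - w) = z + v by ring] at this
  exact this.2 hw4

end Pool.Agent.Helper57.Chn
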